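import Pool.Agent.H477R3.Lift

set_option autoImplicit false

namespace Pool.Agent.H477R3.Core

open Complex Set Pool.Agent.H477R3.Lift

/-- the variation of an arc seen from a point -/
noncomputable def al (z : ℂ) (Y : ℝ → ℂ) : ℂ := lv (fun t => Y t - z) 0 1

theorem beta_al (X Y : ℝ → ℂ) : beta X Y 1 1 = al (Y 1) X - al (X 1) Y := rfl

theorem R {X Y : ℝ → ℂ} (hX : Continuous X) (hY : Continuous Y) (h : ∀ s t, X s ≠ Y t) :
    al (X 1) Y - al (X 0) Y - al (Y 1) X + al (Y 0) X = 0 := indep hX hY h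

/-- the algebraic part of the argument: two paths from `A` to `B` through `a₁, b₁` and through
`a₂, b₂`, and the arc `h` from `A` to `B` -/
theorem theta {h e₁ f₁ p₁ e₂ f₂ p₂ : ℝ → ℂ} (ch : Continuous h) (ce₁ : Continuous e₁)
    (cf₁ : Continuous f₁) (cp₁ : Continuous p₁) (ce₂ : Continuous e₂) (cf₂ : Continuous f₂)
    (cp₂ : Continuous p₂)
    (e₁0 : e₁ 0 = h 0) (e₂0 : e₂ 0 = h 0) (f₁0 : f₁ 0 = h 1) (f₂0 : f₂ 0 = h 1)
    (p₁0 : p₁ 0 = e₁ 1) (p₁1 : p₁ 1 = f₁ 1) (p₂0 : p₂ 0 = e₂ 1) (p₂1 : p₂ 1 = f₂ 1)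
    (d1 : ∀ s t, p₁ s ≠ h t) (d2 : ∀ s t, p₂ s ≠ h t) (d3 : ∀ s t, f₂ s ≠ e₁ t)
    (d4 : ∀ s t, p₂ s ≠ e₁ t) (d5 : ∀ s t, e₂ s ≠ f₁ t) (d6 : ∀ s t, p₂ s ≠ f₁ t)
    (d7 : ∀ s t, p₁ s ≠ e₂ t) (d8 : ∀ s t, p₁ s ≠ p₂ t) (d9 : ∀ s t, p₁ s ≠ f₂ t) :
    (beta h e₁ 1 1 + beta e₁ e₂ 1 1 + beta e₂ h 1 1) +
      ((- al (f₁ 1) h - al (h 0) f₁) + (al (f₂ 1) f₁ - al (f₁ 1) f₂) +
        (al (h 0) f₂ + al (f₂ 1) h)) = 0 := by
  have r1 := R cp₁ ch d1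
  have r2 := R cp₂ ch d2
  have r3 := R cf₂ ce₁ d3
  have r4 := R cp₂ ce₁ d4
  have r5 := R ce₂ cf₁ d5
  have r6 := R cp₂ cf₁ d6
  have r7 := R cp₁ ce₂ d7
  have r8 := R cp₁ cp₂ d8
  have r9 := R cp₁ cf₂ d9
  rw [beta_al, beta_al, beta_al]
  rw [p₁0, p₁1] at r1 r7 r8 r9
  rw [p₂0, p₂1] at r2 r4 r6 r8
  rw [f₂0, e₁0] at r3
  rw [e₁0] at r4
  rw [e₂0, f₁0] at r5
  rw [f₁0] at r6
  rw [e₂0] at r7
  rw [f₂0] at r9
  linear_combination -r1 + r2 + r3 - r4 + r5 + r6 + r7 + r8 - r9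

theorem core (h : ℝ → ℂ) (e f p q : Fin 3 → ℝ → ℂ) (ch : Continuous h)
    (ce : ∀ i, Continuous (e i)) (cf : ∀ i, Continuous (f i)) (cp : ∀ i, Continuous (p i))
    (cq : ∀ i, Continuous (q i))
    (e0 : ∀ i, e i 0 = h 0) (f0 : ∀ i, f i 0 = h 1)
    (p0 : ∀ i, p i 0 = e i 1) (p1 : ∀ i, p i 1 = f i 1)
    (q0 : ∀ i, q i 0 = e (i + 1) 1) (q1 : ∀ i, q i 1 = f i 1)
    (hef : ∀ i j s t, e i s ≠ f j t)
    (hph : ∀ i s t, p i s ≠ h t) (hpe : ∀ i j, i ≠ j → ∀ s t, p i s ≠ e j t)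
    (hpf : ∀ i j, i ≠ j → ∀ s t, p i s ≠ f j t) (hpp : ∀ i j, i ≠ j → ∀ s t, p i s ≠ p j t)
    (hqh : ∀ i s t, q i s ≠ h t) (hqe : ∀ i j, j ≠ i + 1 → ∀ s t, q i s ≠ e j t)
    (hqf : ∀ i j, i ≠ j → ∀ s t, q i s ≠ f j t) (hqq : ∀ i j, i ≠ j → ∀ s t, q i s ≠ q j t)
    (hee : ∀ i j, i ≠ j → ∀ s t, e i s = e j t → s ≤ 0 ∧ t ≤ 0)
    (hhe : ∀ i s t, h s = e i t → s ≤ 0 ∧ t ≤ 0) : False := by
  -- the invariants at `A`
  set S : Fin 3 → Fin 3 → ℂ := fun i j =>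
    beta h (e i) 1 1 + beta (e i) (e j) 1 1 + beta (e j) h 1 1 with hS
  set T : Fin 3 → Fin 3 → ℂ := fun i j =>
    (- al (f i 1) h - al (h 0) (f i)) + (al (f j 1) (f i) - al (f i 1) (f j)) +
        (al (h 0) (f j) + al (f j 1) h) with hT
  have k1 : ∀ i j, i ≠ j → S i j + T i j = 0 := by
    intro i j hij
    exact theta ch (ce i) (cf i) (cp i) (ce j) (cf j) (cp j) (e0 i) (e0 j) (f0 i) (f0 j)
      (p0 i) (p1 i) (p0 j) (p1 j) (hph i) (hph j) (fun s t => (hef i j t s).symm)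
      (hpe j i hij.symm) (hef j i) (hpf j i hij.symm) (hpe i j hij) (hpp i j hij) (hpf i j hij)
  have k2 : ∀ i j, i ≠ j → S (i + 1) (j + 1) + T i j = 0 := by
    intro i j hij
    have h1 : j + 1 ≠ i + 1 := fun h => hij (add_right_cancel h).symm
    exact theta ch (ce (i + 1)) (cf i) (cq i) (ce (j + 1)) (cf j) (cq j) (e0 _) (e0 _) (f0 i) (f0 j)
      (q0 i) (q1 i) (q0 j) (q1 j) (hqh i) (hqh j) (fun s t => (hef (i + 1) j t s).symm)
      (hqe j (i + 1) h1.symm) (hef (j + 1) i) (hqf j i hij.symm) (hqe i (j + 1) h1)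
      (hqq i j hij) (hqf i j hij)
  have k3 : ∀ i j, i ≠ j → S (i + 1) (j + 1) = S i j := by
    intro i j hij
    linear_combination k2 i j hij - k1 i j hij
  have s01 : S 1 2 = S 0 1 := k3 0 1 (by decide)
  have s12 : S 2 0 = S 1 2 := k3 1 2 (by decide)
  have hsum : S 0 1 + S 1 2 + S 2 0
      = beta (e 0) (e 1) 1 1 + beta (e 1) (e 2) 1 1 + beta (e 2) (e 0) 1 1 := by
    simp only [hS]
    rw [beta_anti h (e 0), beta_anti h (e 1), beta_anti h (e 2)]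
    ring
  obtain ⟨κ, hκ, hκe⟩ := triple (ce 0) (ce 1) (ce 2) ((e0 0).trans (e0 1).symm)
    ((e0 0).trans (e0 2).symm) (hee 0 1 (by decide)) (hee 1 2 (by decide)) (hee 2 0 (by decide))
  have hS0 : S 0 1 = ((κ / 3 : ℝ) : ℂ) * I := by
    push_cast
    linear_combination (hsum + hκe - s12 - 2 * s01) / 3
  have hexp : exp (S 0 1) = -1 := by
    have b1 := beta_exp ch (ce 0) (hhe 0)
    have b2 := beta_exp (ce 0) (ce 1) (hee 0 1 (by decide))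
    have b3 := beta_exp (ce 1) ch (fun s t hst => (hhe 1 t s hst.symm).symm)
    simp only [hS]
    rw [exp_add, exp_add, b1, b2, b3, e0 0, e0 1]
    have n1 : e 0 1 - h 0 ≠ 0 := by
      rw [sub_ne_zero]
      intro h1
      have := (hhe 0 0 1 h1.symm).2
      linarith
    have n2 : e 1 1 - h 0 ≠ 0 := by
      rw [sub_ne_zero]
      intro h1
      have := (hhe 1 0 1 h1.symm).2
      linarith
    have n3 : h 1 - h 0 ≠ 0 := by
      rw [sub_ne_zero]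
      intro h1
      have := (hhe 0 1 0 (by rw [h1, e0])).1
      linarith
    field_simp
    ring
  rw [hS0] at hexp
  have h1 := congrArg Complex.re hexp
  rw [Complex.exp_ofReal_mul_I_re] at h1
  simp only [neg_re, one_re] at h1
  have h2 := Real.cos_eq_neg_one_iff.1 h1
  obtain ⟨k, hk⟩ := h2
  have hpi := Real.pi_pos
  have h3 : |κ / 3| < Real.pi := by
    rw [abs_div, abs_of_pos (by norm_num : (0 : ℝ) < 3), div_lt_iff₀ (by norm_num)]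
    linarith
  rw [abs_lt, ← hk] at h3
  have h4 : (k : ℝ) < 0 := by
    by_contra hcon
    push Not at hcon
    nlinarith [h3.2]
  have h5 : (-1 : ℝ) < k := by
    by_contra hcon
    push Not at hcon
    nlinarith [h3.1]
  have h6 : k < 0 := by exact_mod_cast h4
  have h7 : -1 < k := by exact_mod_cast h5
  omega

end Pool.Agent.H477R3.Core
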