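import Mathlib

set_option autoImplicit false

namespace Pool.Agent.H477R3.Lift

open Complex Set

/-- the variation of the logarithm of `g` between `a` and `b` -/
noncomputable def lv (g : ℝ → ℂ) (a b : ℝ) : ℂ := by
  classical
  exact if h : ∃ L : ℝ → ℂ, Continuous L ∧ ∀ t, exp (L t) = g t then h.choose b - h.choose a else 0

theorem lift_unique {L M : ℝ → ℂ} (hL : Continuous L) (hM : Continuous M)
    (h : ∀ t, exp (L t) = exp (M t)) (a b : ℝ) : L b - L a = M b - M a := by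
  have key : L = fun t => M t + (L a - M a) := by
    apply Complex.isCoveringMap_exp.eq_of_comp_eq (a := a) hL (by fun_prop)
    · funext t
      apply Subtype.ext
      show exp (L t) = exp (M t + (L a - M a))
      rw [exp_add, exp_sub, h a, div_self (exp_ne_zero _), mul_one, h t]
    · simp
  have h1 := congrFun key b
  linear_combination h1

theorem lv_eq {g L : ℝ → ℂ} (hL : Continuous L) (h : ∀ t, exp (L t) = g t) (a b : ℝ) :
    lv g a b = L b - L a := by
  have hex : ∃ L : ℝ → ℂ, Continuous L ∧ ∀ t, exp (L t) = g t := ⟨L, hL, h⟩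
  have hdef : lv g a b = hex.choose b - hex.choose a := by
    unfold lv
    rw [dif_pos hex]
  rw [hdef]
  exact lift_unique hex.choose_spec.1 hL (fun t => (hex.choose_spec.2 t).trans (h t).symm) a b

theorem lift2 {U : Set (ℝ × ℝ)} (hU : IsOpen U) {x : ℝ × ℝ} (hs : StarConvex ℝ x U)
    (hne : U.Nonempty) {g : ℝ × ℝ → ℂ} (hg : ContinuousOn g U) (h0 : ∀ q ∈ U, g q ≠ 0) :
    ∃ L : ℝ × ℝ → ℂ, ContinuousOn L U ∧ ∀ q ∈ U, exp (L q) = g q := by
  have hc : IsSimplyConnected U := by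
    have := hs.contractibleSpace hne
    exact (inferInstance : SimplyConnectedSpace U)
  obtain ⟨f, h1, h2⟩ := exists_continuousOn_eqOn_exp_comp hc hU hg
    (by rintro ⟨q, hq, h⟩; exact h0 q hq h)
  exact ⟨f, h1, fun q hq => h2 hq⟩

theorem lift1 {g : ℝ → ℂ} (hg : Continuous g) (h0 : ∀ t, g t ≠ 0) :
    ∃ L : ℝ → ℂ, Continuous L ∧ ∀ t, exp (L t) = g t := by
  obtain ⟨L, hL, h⟩ := lift2 (U := univ) isOpen_univ (x := 0) (starConvex_univ _)
    univ_nonempty (g := fun q : ℝ × ℝ => g q.1) (by fun_prop) (fun q _ => h0 q.1)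
  refine ⟨fun t => L (t, 0), ?_, fun t => h (t, 0) (mem_univ _)⟩
  have := continuousOn_univ.1 hL
  fun_prop

/-- the relation between the logarithmic variations for two disjoint arcs -/
theorem indep {X Y : ℝ → ℂ} (hX : Continuous X) (hY : Continuous Y) (h : ∀ s t, X s ≠ Y t) :
    lv (fun t => Y t - X 1) 0 1 - lv (fun t => Y t - X 0) 0 1
      - lv (fun s => X s - Y 1) 0 1 + lv (fun s => X s - Y 0) 0 1 = 0 := by
  obtain ⟨L, hL, hL2⟩ := lift2 (U := univ) isOpen_univ (x := 0) (starConvex_univ _)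
    univ_nonempty (g := fun q : ℝ × ℝ => Y q.2 - X q.1) (by fun_prop)
    (fun q _ => sub_ne_zero.2 (h q.1 q.2).symm)
  have hLc := continuousOn_univ.1 hL
  have hexp : ∀ s t, exp (L (s, t)) = Y t - X s := fun s t => hL2 (s, t) (mem_univ _)
  have e1 : ∀ s, lv (fun t => Y t - X s) 0 1 = L (s, 1) - L (s, 0) := by
    intro s
    exact lv_eq (L := fun t => L (s, t)) (by fun_prop) (fun t => hexp s t) 0 1
  have e2 : ∀ t, lv (fun s => X s - Y t) 0 1 = L (1, t) - L (0, t) := by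
    intro t
    have := lv_eq (g := fun s => X s - Y t) (L := fun s => L (s, t) + Real.pi * I) (by fun_prop)
      (fun s => by rw [exp_add, hexp, exp_pi_mul_I]; ring) 0 1
    rw [this]; ring
  rw [e1, e1, e2, e2]
  ring

/-- the half-turn variation at a common starting point of two arcs -/
noncomputable def beta (X Y : ℝ → ℂ) (a b : ℝ) : ℂ :=
  lv (fun s => X s - Y b) 0 a - lv (fun t => Y t - X a) 0 b

theorem beta_anti (X Y : ℝ → ℂ) (a b : ℝ) : beta Y X b a = - beta X Y a b := by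
  unfold beta; ring

/-- the variation of an arc around its starting point -/
noncomputable def turn (X : ℝ → ℂ) (u : ℂ) (a : ℝ) : ℂ :=
  lv (fun t => X (max t a) - u) a 1

theorem corner_star : StarConvex ℝ ((1 : ℝ), (1 : ℝ)) {q : ℝ × ℝ | 0 < q.1 ∨ 0 < q.2} := by
  intro y hy a b ha hb hab
  simp only [mem_ofPred_eq, Prod.fst_add, Prod.smul_fst, smul_eq_mul, Prod.snd_add,
    Prod.smul_snd] at *
  rcases hy with hy | hy
  · left
    rcases ha.eq_or_lt with h | h
    · have : b = 1 := by linarith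
      subst this; rw [← h]; linarith
    · have := mul_nonneg hb hy.le
      linarith
  · right
    rcases ha.eq_or_lt with h | h
    · have : b = 1 := by linarith
      subst this; rw [← h]; linarith
    · have := mul_nonneg hb hy.le
      linarith

theorem corner_open : IsOpen {q : ℝ × ℝ | 0 < q.1 ∨ 0 < q.2} :=
  (isOpen_lt continuous_const continuous_fst).union (isOpen_lt continuous_const continuous_snd)

theorem corner_lift {X Y : ℝ → ℂ} (hX : Continuous X) (hY : Continuous Y)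
    (h : ∀ s t, X s = Y t → s ≤ 0 ∧ t ≤ 0) :
    ∃ L : ℝ × ℝ → ℂ, ContinuousOn L {q : ℝ × ℝ | 0 < q.1 ∨ 0 < q.2} ∧
      ∀ s t, (0 < s ∨ 0 < t) → exp (L (s, t)) = Y t - X s := by
  obtain ⟨L, hL, hL2⟩ := lift2 corner_open corner_star ⟨(1, 1), Or.inl one_pos⟩
    (g := fun q : ℝ × ℝ => Y q.2 - X q.1) (by fun_prop)
    (by
      intro q hq h0
      have h1 := h q.1 q.2 (sub_eq_zero.1 h0).symm
      rcases hq with hq | hq
      · linarith [h1.1]
      · linarith [h1.2])
  exact ⟨L, hL, fun s t hst => hL2 (s, t) hst⟩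

theorem beta_eq {X Y : ℝ → ℂ} {L : ℝ × ℝ → ℂ}
    (hL : ContinuousOn L {q : ℝ × ℝ | 0 < q.1 ∨ 0 < q.2})
    (hexp : ∀ s t, (0 < s ∨ 0 < t) → exp (L (s, t)) = Y t - X s) {a b : ℝ} (ha : 0 < a)
    (hb : 0 < b) : beta X Y a b = L (a, 0) - L (0, b) := by
  have e1 : lv (fun s => X s - Y b) 0 a = L (a, b) - L (0, b) := by
    have hc : Continuous fun s : ℝ => L (s, b) := by
      apply hL.comp_continuous (by fun_prop)
      intro s; exact Or.inr hb
    have := lv_eq (g := fun s => X s - Y b) (L := fun s => L (s, b) + Real.pi * I)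
      (hc.add continuous_const)
      (fun s => by rw [exp_add, hexp _ _ (Or.inr hb), exp_pi_mul_I]; ring) 0 a
    rw [this]; ring
  have e2 : lv (fun t => Y t - X a) 0 b = L (a, b) - L (a, 0) := by
    have hc : Continuous fun t : ℝ => L (a, t) := by
      apply hL.comp_continuous (by fun_prop)
      intro s; exact Or.inl ha
    exact lv_eq (L := fun t => L (a, t)) hc (fun t => hexp _ _ (Or.inl ha)) 0 b
  unfold beta
  rw [e1, e2]; ring

theorem beta_exp {X Y : ℝ → ℂ} (hX : Continuous X) (hY : Continuous Y)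
    (h : ∀ s t, X s = Y t → s ≤ 0 ∧ t ≤ 0) :
    exp (beta X Y 1 1) = (Y 0 - X 1) / (Y 1 - X 0) := by
  obtain ⟨L, hL, hexp⟩ := corner_lift hX hY h
  rw [beta_eq hL hexp one_pos one_pos, exp_sub, hexp _ _ (Or.inl one_pos),
    hexp _ _ (Or.inr one_pos)]

theorem beta_trunc {X Y : ℝ → ℂ} (hX : Continuous X) (hY : Continuous Y)
    (h : ∀ s t, X s = Y t → s ≤ 0 ∧ t ≤ 0) (h0 : X 0 = Y 0) {a b : ℝ} (ha : 0 < a) (hb : 0 < b)
    (ha1 : a ≤ 1) (hb1 : b ≤ 1) :
    beta X Y 1 1 = beta X Y a b + turn X (X 0) a - turn Y (X 0) b := by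
  obtain ⟨L, hL, hexp⟩ := corner_lift hX hY h
  have e1 : turn X (X 0) a = L (1, 0) - L (a, 0) := by
    have hc : Continuous fun t : ℝ => L (max t a, 0) := by
      apply hL.comp_continuous (by fun_prop)
      intro s; exact Or.inl (lt_of_lt_of_le ha (le_max_right _ _))
    have := lv_eq (g := fun t => X (max t a) - X 0)
      (L := fun t => L (max t a, 0) + Real.pi * I) (hc.add continuous_const)
      (fun s => by
        rw [exp_add, hexp _ _ (Or.inl (lt_of_lt_of_le ha (le_max_right _ _))), exp_pi_mul_I, h0]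
        ring) a 1
    unfold turn
    rw [this, max_self, max_eq_left ha1]
    ring
  have e2 : turn Y (X 0) b = L (0, 1) - L (0, b) := by
    have hc : Continuous fun t : ℝ => L (0, max t b) := by
      apply hL.comp_continuous (by fun_prop)
      intro s; exact Or.inr (lt_of_lt_of_le hb (le_max_right _ _))
    have := lv_eq (g := fun t => Y (max t b) - X 0)
      (L := fun t => L (0, max t b)) hc
      (fun s => hexp _ _ (Or.inr (lt_of_lt_of_le hb (le_max_right _ _)))) b 1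
    unfold turn
    rw [this, max_self, max_eq_left hb1]
  rw [beta_eq hL hexp one_pos one_pos, beta_eq hL hexp ha hb, e1, e2]
  ring

/-- points of a closed disc seen from a boundary point -/
theorem re_pos {z v : ℂ} {r : ℝ} (hr : 0 < r) (hz : ‖z‖ ≤ r) (hv : ‖v‖ = r) (hne : z ≠ v) :
    0 < (1 - z / v).re := by
  have hv0 : v ≠ 0 := by
    intro h; rw [h, norm_zero] at hv; linarith
  have h1 : ‖z / v‖ ≤ 1 := by
    rw [norm_div, hv, div_le_one hr]; exact hz
  have h2 : z / v ≠ 1 := by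
    intro h; apply hne; rwa [div_eq_one_iff_eq hv0] at h
  have h3 : (z / v).re ≤ 1 := (re_le_norm _).trans h1
  have h4 : (z / v).re ≠ 1 := by
    intro h
    apply h2
    have h5 : Complex.normSq (z / v) ≤ 1 := by
      rw [Complex.normSq_eq_norm_sq]
      nlinarith [norm_nonneg (z / v)]
    rw [Complex.normSq_apply, h] at h5
    have h6 : (z / v).im = 0 := by nlinarith [mul_self_nonneg (z / v).im]
    exact Complex.ext (by simpa using h) (by simpa using h6)
  have h5 : (z / v).re < 1 := lt_of_le_of_ne h3 h4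
  simpa using h5

theorem disc_var {X : ℝ → ℂ} (hX : Continuous X) {a r : ℝ} (ha : 0 ≤ a) (hr : 0 < r) {w : ℂ}
    (hw : ‖w - X 0‖ = r) (hd : ∀ s ∈ Icc 0 a, ‖X s - X 0‖ ≤ r) (hne : ∀ s, X s ≠ w) :
    lv (fun s => X s - w) 0 a = log (1 - (X a - X 0) / (w - X 0)) := by
  obtain ⟨L, hL, hexp⟩ := lift1 (g := fun s => X s - w) (by fun_prop)
    (fun t => sub_ne_zero.2 (hne t))
  have hw0 : w - X 0 ≠ 0 := by
    intro h; rw [h, norm_zero] at hw; linarith
  have hw1 : X 0 - w ≠ 0 := sub_ne_zero.2 (hne 0)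
  rw [lv_eq hL hexp]
  set c : ℝ → ℝ := fun s => max 0 (min s a) with hc
  have hcc : Continuous c := by fun_prop
  have hcm : ∀ s, c s ∈ Icc 0 a := by
    intro s; constructor
    · exact le_max_left _ _
    · exact max_le ha (min_le_right _ _)
  have hre : ∀ s, 0 < (1 - (X (c s) - X 0) / (w - X 0)).re := by
    intro s
    apply re_pos hr (hd _ (hcm s)) hw
    intro h
    apply hne (c s)
    linear_combination h
  have key := lift_unique (L := fun s => L (c s))
    (M := fun s => log (1 - (X (c s) - X 0) / (w - X 0)) + log (X 0 - w)) (by fun_prop)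
    (by
      apply Continuous.add _ continuous_const
      apply Continuous.clog (by fun_prop)
      intro s
      exact Or.inl (hre s))
    (fun t => by
      rw [hexp, exp_add, exp_log hw1, exp_log]
      · field_simp
        ring
      · intro h
        have := hre t
        rw [h] at this
        simp at this) 0 a
  have hc0 : c 0 = 0 := by simp [hc, ha]
  have hca : c a = a := by simp [hc, ha]
  simp only [hc0, hca] at key
  rw [key]
  simp

/-- the variation at a common starting point is less than a half turn, when measured up to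
the first exit from a disc -/
theorem beta_disc {X Y : ℝ → ℂ} (hX : Continuous X) (hY : Continuous Y) (h0 : X 0 = Y 0)
    (h : ∀ s t, X s = Y t → s ≤ 0 ∧ t ≤ 0) {a b r : ℝ} (ha : 0 < a) (hb : 0 < b) (hr : 0 < r)
    (hXa : ‖X a - X 0‖ = r) (hYb : ‖Y b - X 0‖ = r) (hXd : ∀ s ∈ Icc 0 a, ‖X s - X 0‖ ≤ r)
    (hYd : ∀ s ∈ Icc 0 b, ‖Y s - X 0‖ ≤ r) :
    ∃ κ : ℝ, |κ| < Real.pi ∧ beta X Y a b = κ * I := by
  have hXY : X a ≠ Y b := fun h1 => absurd (h _ _ h1).1 (not_le.2 ha)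
  have e1 := disc_var hX ha.le hr (w := Y b) hYb hXd
    (fun s h1 => absurd (h _ _ h1).2 (not_le.2 hb))
  have e2 := disc_var hY hb.le hr (w := X a) (by rw [← h0]; exact hXa)
    (by intro s hs; rw [← h0]; exact hYd s hs) (fun s h1 => absurd (h _ _ h1.symm).1 (not_le.2 ha))
  rw [← h0] at e2
  set ζ : ℂ := (X a - X 0) / (Y b - X 0) with hζ
  have hY0 : Y b - X 0 ≠ 0 := by
    intro h; rw [h, norm_zero] at hYb; linarith
  have hX0 : X a - X 0 ≠ 0 := by
    intro h; rw [h, norm_zero] at hXa; linarith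
  have hre : 0 < (1 - ζ).re := by
    apply re_pos hr hXa.le hYb
    intro h; apply hXY; linear_combination h
  have hinv : (Y b - X 0) / (X a - X 0) = (starRingEnd ℂ) ζ := by
    have h1 : ‖ζ‖ = 1 := by
      rw [hζ, norm_div, hXa, hYb, div_self hr.ne']
    have h2 : ζ * (starRingEnd ℂ) ζ = 1 := by
      rw [Complex.mul_conj, Complex.normSq_eq_norm_sq, h1]; simp
    have h3 : ζ ≠ 0 := div_ne_zero hX0 hY0
    have h4 : (Y b - X 0) / (X a - X 0) = ζ⁻¹ := by rw [hζ, inv_div]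
    rw [h4]
    exact inv_eq_of_mul_eq_one_right h2
  have hlog : log (1 - (starRingEnd ℂ) ζ) = (starRingEnd ℂ) (log (1 - ζ)) := by
    have h1 : (1 - (starRingEnd ℂ) ζ) = (starRingEnd ℂ) (1 - ζ) := by simp
    rw [h1, Complex.log_conj]
    intro h2
    rw [Complex.arg_eq_pi_iff] at h2
    linarith [h2.1]
  refine ⟨2 * (1 - ζ).arg, ?_, ?_⟩
  · have h1 := Complex.abs_arg_lt_pi_div_two_iff.2 (Or.inl hre)
    rw [abs_mul, abs_two]
    linarith
  · unfold beta
    rw [e1, e2, hinv, hlog]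
    apply Complex.ext
    · simp
    · simp [Complex.log_im]; ring

/-- first exit from a disc -/
theorem exit {X : ℝ → ℂ} (hX : Continuous X) {r : ℝ} (hr : 0 < r) (h1 : r < ‖X 1 - X 0‖) :
    ∃ a : ℝ, 0 < a ∧ a ≤ 1 ∧ ‖X a - X 0‖ = r ∧ ∀ s ∈ Icc 0 a, ‖X s - X 0‖ ≤ r := by
  set K : Set ℝ := {s | s ∈ Icc (0 : ℝ) 1 ∧ r ≤ ‖X s - X 0‖} with hK
  have hKc : IsCompact K := by
    have : K = Icc (0 : ℝ) 1 ∩ {s | r ≤ ‖X s - X 0‖} := rfl
    rw [this]
    exact isCompact_Icc.inter_right (isClosed_le continuous_const (by fun_prop))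
  obtain ⟨a, ⟨⟨⟨ha0, ha1⟩, har⟩, hmin⟩⟩ := hKc.exists_isLeast ⟨1, ⟨by simp, h1.le⟩⟩
  have hlt : ∀ s, 0 ≤ s → s < a → ‖X s - X 0‖ < r := by
    intro s hs hsa
    by_contra hcon
    push Not at hcon
    have := hmin (show s ∈ K from ⟨⟨hs, by linarith⟩, hcon⟩)
    linarith
  have ha : 0 < a := by
    rcases ha0.eq_or_lt with h | h
    · rw [← h] at har; simp at har; linarith
    · exact h
  have hle : ∀ s ∈ Icc 0 a, ‖X s - X 0‖ ≤ r := by
    have hcl : IsClosed {s : ℝ | ‖X s - X 0‖ ≤ r} :=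
      isClosed_le (by fun_prop) continuous_const
    have hsub : Ico 0 a ⊆ {s : ℝ | ‖X s - X 0‖ ≤ r} := fun s hs => (hlt s hs.1 hs.2).le
    have := closure_minimal hsub hcl
    rw [closure_Ico ha.ne] at this
    exact this
  exact ⟨a, ha, ha1, le_antisymm (hle a ⟨ha.le, le_rfl⟩) har, hle⟩

/-- three arcs with a common starting point, otherwise disjoint -/
theorem triple {X Y Z : ℝ → ℂ} (hX : Continuous X) (hY : Continuous Y) (hZ : Continuous Z)
    (hXY0 : X 0 = Y 0) (hXZ0 : X 0 = Z 0)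
    (hXY : ∀ s t, X s = Y t → s ≤ 0 ∧ t ≤ 0) (hYZ : ∀ s t, Y s = Z t → s ≤ 0 ∧ t ≤ 0)
    (hZX : ∀ s t, Z s = X t → s ≤ 0 ∧ t ≤ 0) :
    ∃ κ : ℝ, |κ| < 3 * Real.pi ∧ beta X Y 1 1 + beta Y Z 1 1 + beta Z X 1 1 = κ * I := by
  have nX : 0 < ‖X 1 - X 0‖ := by
    rw [norm_pos_iff, sub_ne_zero, hXY0]
    intro h; linarith [(hXY 1 0 h).1]
  have nY : 0 < ‖Y 1 - Y 0‖ := by
    rw [norm_pos_iff, sub_ne_zero, ← hXY0, hXZ0]
    intro h; linarith [(hYZ 1 0 h).1]
  have nZ : 0 < ‖Z 1 - Z 0‖ := by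
    rw [norm_pos_iff, sub_ne_zero, ← hXZ0]
    intro h; linarith [(hZX 1 0 h).1]
  set r := min ‖X 1 - X 0‖ (min ‖Y 1 - Y 0‖ ‖Z 1 - Z 0‖) / 2 with hr
  have hm : 0 < min ‖X 1 - X 0‖ (min ‖Y 1 - Y 0‖ ‖Z 1 - Z 0‖) := lt_min nX (lt_min nY nZ)
  have hr0 : 0 < r := by positivity
  have hrm : r < min ‖X 1 - X 0‖ (min ‖Y 1 - Y 0‖ ‖Z 1 - Z 0‖) := by linarith
  obtain ⟨a, ha, ha1, har, had⟩ := exit hX hr0 (hrm.trans_le (min_le_left _ _))
  obtain ⟨b, hb, hb1, hbr, hbd⟩ := exit hY hr0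
    (hrm.trans_le ((min_le_right _ _).trans (min_le_left _ _)))
  obtain ⟨c, hc, hc1, hcr, hcd⟩ := exit hZ hr0
    (hrm.trans_le ((min_le_right _ _).trans (min_le_right _ _)))
  have hYZ0 : Y 0 = Z 0 := hXY0.symm.trans hXZ0
  obtain ⟨k1, hk1, e1⟩ := beta_disc hX hY hXY0 hXY ha hb hr0 har (by rw [hXY0]; exact hbr) had
    (by rw [hXY0]; exact hbd)
  obtain ⟨k2, hk2, e2⟩ := beta_disc hY hZ hYZ0 hYZ hb hc hr0 hbr (by rw [hYZ0]; exact hcr) hbd
    (by rw [hYZ0]; exact hcd)
  obtain ⟨k3, hk3, e3⟩ := beta_disc hZ hX hXZ0.symm hZX hc ha hr0 hcr (by rw [← hXZ0]; exact har)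
    hcd (by rw [← hXZ0]; exact had)
  have t1 := beta_trunc hX hY hXY hXY0 ha hb ha1 hb1
  have t2 := beta_trunc hY hZ hYZ hYZ0 hb hc hb1 hc1
  have t3 := beta_trunc hZ hX hZX hXZ0.symm hc ha hc1 ha1
  rw [e1] at t1
  rw [e2] at t2
  rw [e3] at t3
  rw [← hXY0] at t2
  rw [← hXZ0] at t3
  refine ⟨k1 + k2 + k3, ?_, ?_⟩
  · calc |k1 + k2 + k3| ≤ |k1| + |k2| + |k3| := abs_add_three _ _ _
      _ < 3 * Real.pi := by linarith
  · rw [t1, t2, t3]; push_cast; ring

end Pool.Agent.H477R3.Lift
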