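import Mathlib

set_option autoImplicit false

namespace Pool.Agent.H477R3.Poly

open Complex Set

abbrev P := ℤ × ℤ

/-- the point of the plane with integer coordinates `p` -/
noncomputable def cp (p : P) : ℂ := ⟨(p.1 : ℝ), (p.2 : ℝ)⟩

/-- the segment between two integer points -/
noncomputable def sg (s : P × P) : Set ℂ := segment ℝ (cp s.1) (cp s.2)

def ori (a b c : P) : ℤ := (b.1 - a.1) * (c.2 - a.2) - (b.2 - a.2) * (c.1 - a.1)

noncomputable def orr (a b z : ℂ) : ℝ :=
  (b.re - a.re) * (z.im - a.im) - (b.im - a.im) * (z.re - a.re)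

theorem orr_cp (a b c : P) : orr (cp a) (cp b) (cp c) = (ori a b c : ℤ) := by
  simp [orr, ori, cp]

theorem orr_comb (x y z w : ℂ) (a b : ℝ) (h : a + b = 1) :
    orr x y (a • z + b • w) = a * orr x y z + b * orr x y w := by
  have : b = 1 - a := by linarith
  subst this
  simp [orr]
  ring

theorem orr_left (x y : ℂ) : orr x y x = 0 := by simp [orr]
theorem orr_right (x y : ℂ) : orr x y y = 0 := by simp [orr]; ring

theorem orr_seg {x y z : ℂ} (h : z ∈ segment ℝ x y) : orr x y z = 0 := by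
  obtain ⟨a, b, ha, hb, hab, rfl⟩ := h
  rw [orr_comb _ _ _ _ _ _ hab, orr_left, orr_right]; simp

theorem cp_inj {p q : P} (h : cp p = cp q) : p = q := by
  have h1 := congrArg Complex.re h
  have h2 := congrArg Complex.im h
  simp [cp] at h1 h2
  exact Prod.ext h1 h2

/-- the value of `ori` on the pair `s` -/
def os (s : P × P) (c : P) : ℤ := ori s.1 s.2 c

def disj (s t : P × P) : Bool :=
  decide (0 < os s t.1 * os s t.2) || decide (0 < os t s.1 * os t s.2)

def cross (s t : P × P) : Bool :=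
  decide (os s t.1 * os s t.2 < 0) && decide (os t s.1 * os t s.2 < 0)

def other (s : P × P) (c : P) : P := if s.1 = c then s.2 else s.1

def cornerAt (c : P) (s t : P × P) : Bool :=
  (decide (s.1 = c) || decide (s.2 = c)) && (decide (t.1 = c) || decide (t.2 = c)) &&
    decide (ori c (other s c) (other t c) ≠ 0)

theorem disj_aux {s t : P × P} (h : 0 < os s t.1 * os s t.2) : Disjoint (sg s) (sg t) := by
  rw [Set.disjoint_left]
  intro z hz hz'
  have h1 := orr_seg hz
  obtain ⟨a, b, ha, hb, hab, rfl⟩ := hz'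
  rw [orr_comb _ _ _ _ _ _ hab, orr_cp, orr_cp] at h1
  change a * (os s t.1 : ℤ) + b * (os s t.2 : ℤ) = 0 at h1
  have h2 : (0 : ℝ) < (os s t.1 : ℤ) * (os s t.2 : ℤ) := by exact_mod_cast h
  set o1 : ℝ := ((os s t.1 : ℤ) : ℝ)
  set o2 : ℝ := ((os s t.2 : ℤ) : ℝ)
  have h3 : a = 1 - b := by linarith
  have h4 : (a * o1 + b * o2) * o1 = 0 := by rw [h1]; ring
  have h5 : 0 < o1 * o1 := by
    rcases lt_trichotomy o1 0 with h | h | h
    · nlinarith
    · rw [h] at h2; simp at h2
    · nlinarith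
  have h6 : 0 ≤ a * (o1 * o1) := by positivity
  have h7 : 0 ≤ b * (o1 * o2) := by positivity
  have h8 : a * (o1 * o1) + b * (o1 * o2) = 0 := by linarith
  have h9 : a = 0 := by
    by_contra hne
    have : 0 < a := lt_of_le_of_ne ha (Ne.symm hne)
    have := mul_pos this h5
    linarith
  have h10 : b = 1 := by linarith
  rw [h9, h10] at h8
  linarith

theorem disj_sound {s t : P × P} (h : disj s t = true) : Disjoint (sg s) (sg t) := by
  unfold disj at h
  rw [Bool.or_eq_true, decide_eq_true_eq, decide_eq_true_eq] at h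
  rcases h with h | h
  · exact disj_aux h
  · exact (disj_aux h).symm

/-- strict interior of a segment -/
def Inner (s : P × P) (z : ℂ) : Prop :=
  ∃ a b : ℝ, 0 < a ∧ 0 < b ∧ a + b = 1 ∧ a • cp s.1 + b • cp s.2 = z

theorem Inner.mem {s : P × P} {z : ℂ} (h : Inner s z) : z ∈ sg s := by
  obtain ⟨a, b, ha, hb, hab, h⟩ := h
  exact ⟨a, b, ha.le, hb.le, hab, h⟩

theorem cross_sound {s t : P × P} (h : cross s t = true) :
    ∃ z, sg s ∩ sg t = {z} ∧ Inner s z ∧ Inner t z := by
  unfold cross at h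
  rw [Bool.and_eq_true, decide_eq_true_eq, decide_eq_true_eq] at h
  obtain ⟨h1, h2⟩ := h
  have h1' : ((os s t.1 : ℤ) : ℝ) * (os s t.2 : ℤ) < 0 := by exact_mod_cast h1
  have h2' : ((os t s.1 : ℤ) : ℝ) * (os t s.2 : ℤ) < 0 := by exact_mod_cast h2
  set o1 : ℝ := ((os s t.1 : ℤ) : ℝ) with ho1
  set o2 : ℝ := ((os s t.2 : ℤ) : ℝ) with ho2
  set r1 : ℝ := ((os t s.1 : ℤ) : ℝ) with hr1
  set r2 : ℝ := ((os t s.2 : ℤ) : ℝ) with hr2
  have hD : r1 - r2 = o2 - o1 := by
    simp only [ho1, ho2, hr1, hr2, os, ori]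
    push_cast
    ring
  have hne : o2 - o1 ≠ 0 := by
    intro h
    have : o1 = o2 := by linarith
    rw [this] at h1'
    nlinarith [mul_self_nonneg o2]
  have hpos : ∀ x y : ℝ, x * y < 0 → 0 < y / (y - x) ∧ 0 < -x / (y - x) := by
    intro x y hxy
    rcases lt_trichotomy x 0 with h | h | h
    · have hy : 0 < y := by nlinarith
      constructor
      · apply div_pos hy; linarith
      · apply div_pos <;> linarith
    · rw [h] at hxy; simp at hxy
    · have hy : y < 0 := by nlinarith
      constructor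
      · apply div_pos_of_neg_of_neg hy; linarith
      · apply div_pos_of_neg_of_neg <;> linarith
  obtain ⟨a0, b0⟩ := hpos o1 o2 h1'
  obtain ⟨a1, b1⟩ := hpos r2 r1 (by rw [mul_comm]; exact h2')
  have hz : (o2 / (o2 - o1)) • cp t.1 + (-o1 / (o2 - o1)) • cp t.2
      = (-r2 / (r1 - r2)) • cp s.1 + (r1 / (r1 - r2)) • cp s.2 := by
    rw [hD]
    apply Complex.ext
    · simp only [cp, real_smul, add_re, mul_re, ofReal_re, ofReal_im, zero_mul, sub_zero]
      field_simp
      simp only [ho1, ho2, hr1, hr2, os, ori]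
      push_cast
      ring
    · simp only [cp, real_smul, add_im, mul_im, ofReal_re, ofReal_im, zero_mul, add_zero]
      field_simp
      simp only [ho1, ho2, hr1, hr2, os, ori]
      push_cast
      ring
  have hsum1 : o2 / (o2 - o1) + -o1 / (o2 - o1) = 1 := by
    field_simp
    ring
  have hne2 : r1 - r2 ≠ 0 := by rw [hD]; exact hne
  have hsum2 : -r2 / (r1 - r2) + r1 / (r1 - r2) = 1 := by
    field_simp
    ring
  refine ⟨(o2 / (o2 - o1)) • cp t.1 + (-o1 / (o2 - o1)) • cp t.2, ?_, ?_, ?_⟩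
  · apply Set.Subset.antisymm
    · rintro z ⟨hz1, hz2⟩
      have e1 := orr_seg hz1
      obtain ⟨a, b, ha, hb, hab, rfl⟩ := hz2
      rw [orr_comb _ _ _ _ _ _ hab, orr_cp, orr_cp] at e1
      change a * o1 + b * o2 = 0 at e1
      have e2 : b = -o1 / (o2 - o1) := by
        rw [eq_div_iff hne]
        have : a = 1 - b := by linarith
        rw [this] at e1
        linarith
      have e3 : a = o2 / (o2 - o1) := by linarith
      rw [e2, e3]
      exact rfl
    · rintro z rfl
      constructor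
      · rw [hz]
        exact ⟨_, _, b1.le, a1.le, hsum2, rfl⟩
      · exact ⟨_, _, a0.le, b0.le, hsum1, rfl⟩
  · rw [hz]
    exact ⟨_, _, b1, a1, hsum2, rfl⟩
  · exact ⟨_, _, a0, b0, hsum1, rfl⟩

theorem sg_other {s : P × P} {c : P} (h : s.1 = c ∨ s.2 = c) : sg s = sg (c, other s c) := by
  unfold other
  split_ifs with h1
  · rw [← h1]
  · rcases h with h | h
    · exact absurd h h1
    · unfold sg
      rw [segment_symm, ← h]

theorem corner_sound {c : P} {s t : P × P} (h : cornerAt c s t = true) :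
    sg s ∩ sg t ⊆ {cp c} := by
  unfold cornerAt at h
  simp only [Bool.and_eq_true, Bool.or_eq_true, decide_eq_true_eq] at h
  obtain ⟨⟨h1, h2⟩, h3⟩ := h
  rw [sg_other h1, sg_other h2]
  rintro z ⟨hz1, hz2⟩
  have e1 := orr_seg hz1
  obtain ⟨a, b, ha, hb, hab, rfl⟩ := hz2
  rw [orr_comb _ _ _ _ _ _ hab] at e1
  simp only at e1
  rw [orr_left, orr_cp] at e1
  have h3' : ((ori c (other s c) (other t c) : ℤ) : ℝ) ≠ 0 := by exact_mod_cast h3
  have hb0 : b = 0 := by
    have : b * ((ori c (other s c) (other t c) : ℤ) : ℝ) = 0 := by linarith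
    exact (mul_eq_zero.1 this).resolve_right h3'
  have ha1 : a = 1 := by linarith
  rw [hb0, ha1]
  simp

theorem Inner.ne {s : P × P} {z : ℂ} (h : Inner s z) (hs : s.1 ≠ s.2) : z ≠ cp s.1 ∧ z ≠ cp s.2 := by
  obtain ⟨a, b, ha, hb, hab, rfl⟩ := h
  have ha' : a = 1 - b := by linarith
  constructor
  · intro h
    apply hs
    apply cp_inj
    have h1 : (b : ℂ) * (cp s.2 - cp s.1) = 0 := by
      rw [ha'] at h
      simp only [real_smul] at h
      push_cast at h
      linear_combination h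
    rcases mul_eq_zero.1 h1 with h2 | h2
    · exact absurd (by exact_mod_cast h2) hb.ne'
    · exact (sub_eq_zero.1 h2).symm
  · intro h
    apply hs
    apply cp_inj
    have hb' : b = 1 - a := by linarith
    have h1 : (a : ℂ) * (cp s.1 - cp s.2) = 0 := by
      rw [hb'] at h
      simp only [real_smul] at h
      push_cast at h
      linear_combination h
    rcases mul_eq_zero.1 h1 with h2 | h2
    · exact absurd (by exact_mod_cast h2) ha.ne'
    · exact sub_eq_zero.1 h2

/-- two segments of one polygonal line: disjoint, or meeting in an end only -/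
def sep (s t : P × P) : Bool := disj s t || cornerAt s.1 s t || cornerAt s.2 s t

theorem sep_sound {s t : P × P} (h : sep s t = true) (hs : s.1 ≠ s.2) {z : ℂ} (hz : Inner s z) :
    z ∉ sg t := by
  intro hzt
  unfold sep at h
  rw [Bool.or_eq_true, Bool.or_eq_true] at h
  rcases h with (h | h) | h
  · exact Set.disjoint_left.1 (disj_sound h) hz.mem hzt
  · exact (hz.ne hs).1 (corner_sound h ⟨hz.mem, hzt⟩)
  · exact (hz.ne hs).2 (corner_sound h ⟨hz.mem, hzt⟩)

/-- the polygonal line with the given segments -/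
noncomputable def arcOf (l : Finset (P × P)) : Set ℂ := {z | ∃ s ∈ l, z ∈ sg s}

theorem arcOf_eq (l : Finset (P × P)) : arcOf l = ⋃ s ∈ l, sg s := by
  ext z; simp [arcOf]

theorem sg_closed (s : P × P) : IsClosed (sg s) := by
  unfold sg
  rw [segment_eq_image_lineMap]
  exact (isCompact_Icc.image (by fun_prop)).isClosed

theorem arcOf_closed (l : Finset (P × P)) : IsClosed (arcOf l) := by
  rw [arcOf_eq]
  exact l.finite_toSet.isClosed_biUnion (fun s _ => sg_closed s)

/-- number of crossings of two polygonal lines -/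
theorem ncard_inter {l m : Finset (P × P)}
    (hl : ∀ s ∈ l, s.1 ≠ s.2 ∧ ∀ s' ∈ l, s ≠ s' → sep s s' = true)
    (hm : ∀ s ∈ m, s.1 ≠ s.2 ∧ ∀ s' ∈ m, s ≠ s' → sep s s' = true)
    (hlm : ∀ s ∈ l, ∀ t ∈ m, disj s t = true ∨ cross s t = true) :
    (arcOf l ∩ arcOf m).ncard = ((l ×ˢ m).filter (fun q => cross q.1 q.2 = true)).card := by
  classical
  set L := (l ×ˢ m).filter (fun q => cross q.1 q.2 = true) with hL
  have hex : ∀ q : (P × P) × (P × P), ∃ z : ℂ, q ∈ L →
      (sg q.1 ∩ sg q.2 = {z} ∧ Inner q.1 z ∧ Inner q.2 z) := by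
    intro q
    by_cases hq : q ∈ L
    · obtain ⟨z, hz⟩ := cross_sound (Finset.mem_filter.1 hq).2
      exact ⟨z, fun _ => hz⟩
    · exact ⟨0, fun h => absurd h hq⟩
  choose f hf using hex
  have himg : arcOf l ∩ arcOf m = f '' (L : Set ((P × P) × (P × P))) := by
    ext z
    constructor
    · rintro ⟨⟨s, hs, hzs⟩, ⟨t, ht, hzt⟩⟩
      have hc : cross s t = true := by
        rcases hlm s hs t ht with h | h
        · exact absurd hzt (Set.disjoint_left.1 (disj_sound h) hzs)
        · exact h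
      have hq : (s, t) ∈ L := by
        rw [hL, Finset.mem_filter]
        exact ⟨Finset.mem_product.2 ⟨hs, ht⟩, hc⟩
      refine ⟨(s, t), hq, ?_⟩
      have h1 := (hf (s, t) hq).1
      have h2 : z ∈ sg s ∩ sg t := ⟨hzs, hzt⟩
      rw [h1] at h2
      exact h2.symm
    · rintro ⟨q, hq, rfl⟩
      have hq' : q ∈ L := hq
      have h1 := (hf q hq').1
      have h2 : f q ∈ sg q.1 ∩ sg q.2 := by rw [h1]; rfl
      rw [hL, Finset.mem_filter, Finset.mem_product] at hq'
      exact ⟨⟨q.1, hq'.1.1, h2.1⟩, ⟨q.2, hq'.1.2, h2.2⟩⟩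
  have hinj : Set.InjOn f (L : Set ((P × P) × (P × P))) := by
    intro q hq q' hq' hqq
    have hqL : q ∈ L := hq
    have hqL' : q' ∈ L := hq'
    have h1 := hf q hqL
    have h1' := hf q' hqL'
    have g := hqL
    have g' := hqL'
    rw [hL, Finset.mem_filter, Finset.mem_product] at g g'
    apply Prod.ext
    · by_contra hne
      exact sep_sound ((hl q.1 g.1.1).2 q'.1 g'.1.1 hne) (hl q.1 g.1.1).1 h1.2.1
        (by rw [hqq]; exact h1'.2.1.mem)
    · by_contra hne
      exact sep_sound ((hm q.2 g.1.2).2 q'.2 g'.1.2 hne) (hm q.2 g.1.2).1 h1.2.2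
        (by rw [hqq]; exact h1'.2.2.mem)
  rw [himg, hinj.ncard_image, Set.ncard_coe_finset]

/-- the affine chart with the two given directions as axes -/
noncomputable def chart (z : ℂ) (d e : ℂ) (h : d.re * e.im - d.im * e.re ≠ 0) : ℂ ≃ₜ ℝ × ℝ where
  toFun w := (e.re * (w.im - z.im) - e.im * (w.re - z.re),
    d.re * (w.im - z.im) - d.im * (w.re - z.re))
  invFun q := ⟨z.re + (e.re * q.2 - d.re * q.1) / (d.re * e.im - d.im * e.re),
    z.im + (e.im * q.2 - d.im * q.1) / (d.re * e.im - d.im * e.re)⟩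
  left_inv w := by
    apply Complex.ext
    · simp only
      rw [show e.re * (d.re * (w.im - z.im) - d.im * (w.re - z.re))
        - d.re * (e.re * (w.im - z.im) - e.im * (w.re - z.re))
        = (w.re - z.re) * (d.re * e.im - d.im * e.re) by ring, mul_div_cancel_right₀ _ h]
      ring
    · simp only
      rw [show e.im * (d.re * (w.im - z.im) - d.im * (w.re - z.re))
        - d.im * (e.re * (w.im - z.im) - e.im * (w.re - z.re))
        = (w.im - z.im) * (d.re * e.im - d.im * e.re) by ring, mul_div_cancel_right₀ _ h]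
      ring
  right_inv q := by
    apply Prod.ext
    · simp only
      rw [add_sub_cancel_left, add_sub_cancel_left, mul_div_assoc', mul_div_assoc', ← sub_div,
        div_eq_iff h]
      ring
    · simp only
      rw [add_sub_cancel_left, add_sub_cancel_left, mul_div_assoc', mul_div_assoc', ← sub_div,
        div_eq_iff h]
      ring
  continuous_toFun := by fun_prop
  continuous_invFun := by
    have : (fun q : ℝ × ℝ => (⟨z.re + (e.re * q.2 - d.re * q.1) / (d.re * e.im - d.im * e.re),
      z.im + (e.im * q.2 - d.im * q.1) / (d.re * e.im - d.im * e.re)⟩ : ℂ)) = fun q =>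
      Complex.equivRealProdCLM.symm (z.re + (e.re * q.2 - d.re * q.1) / (d.re * e.im - d.im * e.re),
      z.im + (e.im * q.2 - d.im * q.1) / (d.re * e.im - d.im * e.re)) := by
      funext q
      apply Complex.ext <;> simp
    rw [this]
    fun_prop

/-- near an inner point of a segment, the segment is the line -/
theorem line_near {s : P × P} {z : ℂ} (hz : Inner s z) (hs : s.1 ≠ s.2) :
    ∃ U : Set ℂ, IsOpen U ∧ z ∈ U ∧ ∀ w ∈ U, (w ∈ sg s ↔
      ((cp s.2).re - (cp s.1).re) * (w.im - z.im) - ((cp s.2).im - (cp s.1).im) * (w.re - z.re)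
        = 0) := by
  obtain ⟨a, b, ha, hb, hab, hz⟩ := hz
  set x := cp s.1 with hx
  set y := cp s.2 with hy
  have hxy : x ≠ y := fun h => hs (cp_inj h)
  set N : ℝ := (y.re - x.re) ^ 2 + (y.im - x.im) ^ 2 with hN
  have hN0 : 0 < N := by
    rcases eq_or_ne y.re x.re with h1 | h1
    · have h2 : y.im ≠ x.im := fun h2 => hxy (Complex.ext h1 h2).symm
      have := sq_pos_of_ne_zero (sub_ne_zero.2 h2)
      positivity
    · have := sq_pos_of_ne_zero (sub_ne_zero.2 h1)
      positivity
  set F : ℂ → ℝ := fun w => (y.re - x.re) * (w.re - x.re) + (y.im - x.im) * (w.im - x.im) with hF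
  have ha' : a = 1 - b := by linarith
  have zre : z.re = x.re + b * (y.re - x.re) := by
    rw [← hz, ha']; simp; ring
  have zim : z.im = x.im + b * (y.im - x.im) := by
    rw [← hz, ha']; simp; ring
  have hFz : F z = b * N := by
    simp only [hF, zre, zim, hN]; ring
  have hFc : Continuous F := by simp only [hF]; fun_prop
  refine ⟨{w | 0 < F w ∧ F w < N}, ?_, ?_, ?_⟩
  · exact (isOpen_lt continuous_const hFc).inter (isOpen_lt hFc continuous_const)
  · show 0 < F z ∧ F z < N
    rw [hFz]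
    constructor
    · positivity
    · nlinarith
  · rintro w ⟨hw1, hw2⟩
    rw [zre, zim]
    constructor
    · rintro ⟨a', b', -, -, hab', rfl⟩
      have : a' = 1 - b' := by linarith
      rw [this]
      simp
      ring
    · intro h
      have h' : (y.re - x.re) * (w.im - x.im) - (y.im - x.im) * (w.re - x.re) = 0 := by
        linear_combination h
      refine ⟨1 - F w / N, F w / N, ?_, ?_, by ring, ?_⟩
      · rw [sub_nonneg, div_le_one hN0]; exact hw2.le
      · positivity
      · apply Complex.ext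
        · simp only [real_smul, add_re, mul_re, ofReal_re, ofReal_im, zero_mul, sub_zero]
          field_simp
          simp only [hF, hN]
          linear_combination (y.im - x.im) * h'
        · simp only [real_smul, add_im, mul_im, ofReal_re, ofReal_im, zero_mul, add_zero]
          field_simp
          simp only [hF, hN]
          linear_combination (-(y.re - x.re)) * h'

theorem proper_sound {l m : Finset (P × P)}
    (hl : ∀ s ∈ l, s.1 ≠ s.2 ∧ ∀ s' ∈ l, s ≠ s' → sep s s' = true)
    (hm : ∀ s ∈ m, s.1 ≠ s.2 ∧ ∀ s' ∈ m, s ≠ s' → sep s s' = true)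
    {s t : P × P} (hs : s ∈ l) (ht : t ∈ m) (hst : cross s t = true) {z : ℂ} (hz : z ∈ sg s)
    (hz' : z ∈ sg t) :
    ∃ φ : OpenPartialHomeomorph ℂ (ℝ × ℝ), z ∈ φ.source ∧ φ z = (0, 0) ∧
      ∀ w ∈ φ.source, (w ∈ arcOf l ↔ (φ w).2 = 0) ∧ (w ∈ arcOf m ↔ (φ w).1 = 0) := by
  classical
  obtain ⟨z', h1, h2, h3⟩ := cross_sound hst
  have hzz : z = z' := by
    have : z ∈ sg s ∩ sg t := ⟨hz, hz'⟩
    rw [h1] at this
    exact this
  subst hzz
  obtain ⟨U, hU, hzU, hUs⟩ := line_near h2 (hl s hs).1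
  obtain ⟨W, hW, hzW, hWt⟩ := line_near h3 (hm t ht).1
  have hD : (cp s.2 - cp s.1).re * (cp t.2 - cp t.1).im
      - (cp s.2 - cp s.1).im * (cp t.2 - cp t.1).re ≠ 0 := by
    have e1 : (cp s.2 - cp s.1).re * (cp t.2 - cp t.1).im
      - (cp s.2 - cp s.1).im * (cp t.2 - cp t.1).re = ((os s t.2 - os s t.1 : ℤ) : ℝ) := by
      simp only [cp, os, ori, sub_re, sub_im]
      push_cast
      ring
    rw [e1]
    unfold cross at hst
    rw [Bool.and_eq_true, decide_eq_true_eq, decide_eq_true_eq] at hst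
    intro h
    have h4 : os s t.2 - os s t.1 = 0 := by exact_mod_cast h
    have h5 : os s t.2 = os s t.1 := by omega
    have h6 := hst.1
    rw [h5] at h6
    nlinarith [mul_self_nonneg (os s t.1)]
  set H := chart z (cp s.2 - cp s.1) (cp t.2 - cp t.1) hD with hH
  set O : Set ℂ := U ∩ W ∩ (arcOf (l.erase s))ᶜ ∩ (arcOf (m.erase t))ᶜ with hO
  have hOo : IsOpen O :=
    ((hU.inter hW).inter (arcOf_closed _).isOpen_compl).inter (arcOf_closed _).isOpen_compl
  have hzO : z ∈ O := by
    refine ⟨⟨⟨hzU, hzW⟩, ?_⟩, ?_⟩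
    · rintro ⟨s', hs', hzs'⟩
      rw [Finset.mem_erase] at hs'
      exact sep_sound ((hl s hs).2 s' hs'.2 (Ne.symm hs'.1)) (hl s hs).1 h2 hzs'
    · rintro ⟨s', hs', hzs'⟩
      rw [Finset.mem_erase] at hs'
      exact sep_sound ((hm t ht).2 s' hs'.2 (Ne.symm hs'.1)) (hm t ht).1 h3 hzs'
  refine ⟨H.toOpenPartialHomeomorph.restrOpen O hOo, ?_, ?_, ?_⟩
  · show z ∈ H.toOpenPartialHomeomorph.source ∩ O
    exact ⟨mem_univ _, hzO⟩
  · show H z = (0, 0)
    simp [hH, chart]
  · intro w hw
    have hwO : w ∈ O := hw.2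
    have hHw : (H.toOpenPartialHomeomorph.restrOpen O hOo) w = H w := rfl
    rw [hHw]
    obtain ⟨⟨⟨hwU, hwW⟩, hw1⟩, hw2⟩ := hwO
    constructor
    · have : (H w).2 = ((cp s.2).re - (cp s.1).re) * (w.im - z.im)
          - ((cp s.2).im - (cp s.1).im) * (w.re - z.re) := by
        simp [hH, chart]
      rw [this, ← hUs w hwU]
      constructor
      · rintro ⟨s', hs', hws'⟩
        by_cases h : s' = s
        · rw [← h]; exact hws'
        · exact absurd ⟨s', Finset.mem_erase.2 ⟨h, hs'⟩, hws'⟩ hw1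
      · intro h; exact ⟨s, hs, h⟩
    · have : (H w).1 = ((cp t.2).re - (cp t.1).re) * (w.im - z.im)
          - ((cp t.2).im - (cp t.1).im) * (w.re - z.re) := by
        simp [hH, chart]
      rw [this, ← hWt w hwW]
      constructor
      · rintro ⟨s', hs', hws'⟩
        by_cases h : s' = t
        · rw [← h]; exact hws'
        · exact absurd ⟨s', Finset.mem_erase.2 ⟨h, hs'⟩, hws'⟩ hw2
      · intro h; exact ⟨t, ht, h⟩

/-- an arc -/
theorem arc_seg {x y : ℂ} (h : x ≠ y) :
    ∃ γ : Path x y, Function.Injective γ ∧ range γ = segment ℝ x y := by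
  refine ⟨⟨⟨fun t => AffineMap.lineMap x y (t : ℝ), by fun_prop⟩, by simp, by simp⟩, ?_, ?_⟩
  · intro s t hst
    have h1 : AffineMap.lineMap x y (s : ℝ) = AffineMap.lineMap x y (t : ℝ) := hst
    exact Subtype.ext (AffineMap.lineMap_injective ℝ h h1)
  · rw [segment_eq_image_lineMap]
    ext z
    constructor
    · rintro ⟨t, rfl⟩
      exact ⟨t, t.2, rfl⟩
    · rintro ⟨t, ht, rfl⟩
      exact ⟨⟨t, ht⟩, rfl⟩

theorem arc_append {x y z : ℂ} {S T : Set ℂ}
    (hS : ∃ γ : Path x y, Function.Injective γ ∧ range γ = S)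
    (hT : ∃ γ : Path y z, Function.Injective γ ∧ range γ = T) (h : S ∩ T ⊆ {y}) :
    ∃ γ : Path x z, Function.Injective γ ∧ range γ = S ∪ T := by
  obtain ⟨γ, hγ, rfl⟩ := hS
  obtain ⟨δ, hδ, rfl⟩ := hT
  refine ⟨γ.trans δ, ?_, Path.trans_range γ δ⟩
  have key : ∀ s t : unitInterval, (s : ℝ) ≤ 1 / 2 → ¬ (t : ℝ) ≤ 1 / 2 →
      γ.trans δ s ≠ γ.trans δ t := by
    intro s t hs ht hst
    rw [Path.trans_apply, Path.trans_apply, dif_pos hs, dif_neg ht] at hst
    have h1 : γ ⟨2 * s, (unitInterval.mul_pos_mem_iff zero_lt_two).2 ⟨s.2.1, hs⟩⟩ = y :=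
      h ⟨⟨_, rfl⟩, ⟨_, hst.symm⟩⟩
    rw [h1] at hst
    have h2 : (⟨2 * t - 1, unitInterval.two_mul_sub_one_mem_iff.2 ⟨(not_le.1 ht).le, t.2.2⟩⟩ :
        unitInterval) = 0 := by
      apply hδ
      rw [← hst, δ.source]
    have h3 := congrArg Subtype.val h2
    simp only [Set.Icc.coe_zero] at h3
    apply ht
    linarith
  intro s t hst
  by_cases hs : (s : ℝ) ≤ 1 / 2
  · by_cases ht : (t : ℝ) ≤ 1 / 2
    · rw [Path.trans_apply, Path.trans_apply, dif_pos hs, dif_pos ht] at hst
      have h1 := congrArg Subtype.val (hγ hst)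
      simp only at h1
      apply Subtype.ext; linarith
    · exact absurd hst (key s t hs ht)
  · by_cases ht : (t : ℝ) ≤ 1 / 2
    · exact absurd hst.symm (key t s ht hs)
    · rw [Path.trans_apply, Path.trans_apply, dif_neg hs, dif_neg ht] at hst
      have h1 := congrArg Subtype.val (hδ hst)
      simp only at h1
      apply Subtype.ext; linarith

end Pool.Agent.H477R3.Poly
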