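import Mathlib

/-!
Turning angles, swept angles and Hopf's formula for simple polylines in the plane.
-/

namespace Pool.Agent.H477R3.Turn

open Complex Real

/-- signed angle at `q` from `x` to `y` -/
noncomputable def ang (q x y : ℂ) : ℝ := Complex.arg ((y - q) / (x - q))

/-- turning angle at `b` of the polyline `a b c` -/
noncomputable def turn (a b c : ℂ) : ℝ := Complex.arg ((c - b) / (b - a))

/-- additivity of arguments of numbers in the right half plane -/
theorem arg_div_of_pos {a b : ℂ} (ha : 0 < a.re) (hb : 0 < b.re) :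
    arg (b / a) = arg b - arg a := by
  have ha0 : a ≠ 0 := by rintro rfl; simp at ha
  have hb0 : b ≠ 0 := by rintro rfl; simp at hb
  have h1 := abs_lt.1 (Complex.abs_arg_lt_pi_div_two_iff.2 (Or.inl ha))
  have h2 := abs_lt.1 (Complex.abs_arg_lt_pi_div_two_iff.2 (Or.inl hb))
  have hpi := Real.pi_pos
  have hinv : arg a⁻¹ = - arg a := by
    rw [Complex.arg_inv, if_neg]
    intro h; rw [h] at h1; linarith
  rw [div_eq_mul_inv, (Complex.arg_mul_eq_add_arg_iff hb0 (inv_ne_zero ha0)).2, hinv]
  · ring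
  · rw [hinv]
    constructor <;> linarith

theorem arg_div_half {z w u : ℂ} (hz : 0 < (z / u).re) (hw : 0 < (w / u).re) :
    arg (w / z) = arg (w / u) - arg (z / u) := by
  have hu : u ≠ 0 := by rintro rfl; simp at hz
  rw [← arg_div_of_pos hz hw, div_div_div_cancel_right₀ hu]

/-- the separating functional as a half plane -/
theorem exists_half {s t : Set ℂ} (hs : Convex ℝ s) (hs' : IsCompact s) (ht : Convex ℝ t)
    (ht' : IsCompact t) (hd : Disjoint s t) :
    ∃ u : ℂ, ∀ a ∈ s, ∀ b ∈ t, 0 < ((b - a) / u).re := by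
  obtain ⟨f, c, d, h1, h2, h3⟩ :=
    geometric_hahn_banach_compact_closed hs hs' ht ht'.isClosed hd
  by_cases hne : s.Nonempty ∧ t.Nonempty
  · obtain ⟨⟨a0, ha0⟩, ⟨b0, hb0⟩⟩ := hne
    have key : ∀ z : ℂ, f z = z.re * f 1 + z.im * f I := by
      intro z
      conv_lhs => rw [← Complex.re_add_im z]
      rw [map_add]
      have e1 : ((z.re : ℂ)) = z.re • (1 : ℂ) := by simp
      have e2 : ((z.im : ℂ)) * I = z.im • I := by simp
      rw [e2, map_smul, e1, map_smul]
      simp
    set u : ℂ := ⟨f 1, f I⟩ with hu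
    have hu0 : u ≠ 0 := by
      intro h
      have hr : f 1 = 0 := by simpa [hu] using congrArg Complex.re h
      have hi : f I = 0 := by simpa [hu] using congrArg Complex.im h
      have e1 := h1 a0 ha0
      have e2 := h3 b0 hb0
      rw [key, hr, hi] at e1 e2
      linarith
    refine ⟨u, fun a ha b hb => ?_⟩
    have hpos : 0 < f (b - a) := by
      rw [map_sub]; linarith [h1 a ha, h3 b hb]
    rw [key] at hpos
    have : ((b - a) / u).re = ((b-a).re * f 1 + (b-a).im * f I) / normSq u := by
      rw [Complex.div_re]; simp only [hu]; ring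
    rw [this]
    exact div_pos hpos (Complex.normSq_pos.2 hu0)
  · refine ⟨1, fun a ha b hb => ?_⟩
    exact absurd ⟨⟨a, ha⟩, ⟨b, hb⟩⟩ hne

theorem compact_seg (a b : ℂ) : IsCompact (segment ℝ a b) := by
  rw [segment_eq_image]
  exact isCompact_Icc.image (by fun_prop)

/-- the square relation -/
theorem square {q q' x x' : ℂ} (h : Disjoint (segment ℝ q q') (segment ℝ x x')) :
    ang q x x' + ang x' q q' = ang x q q' + ang q' x x' := by
  obtain ⟨u, hu⟩ := exists_half (convex_segment q q') (compact_seg q q')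
    (convex_segment x x') (compact_seg x x') h
  have hq := left_mem_segment ℝ q q'
  have hq' := right_mem_segment ℝ q q'
  have hx := left_mem_segment ℝ x x'
  have hx' := right_mem_segment ℝ x x'
  have e : ∀ p y y' : ℂ, (y' - p) / (y - p) = (p - y') / (p - y) := by
    intro p y y'
    rw [← neg_sub p y', ← neg_sub p y, neg_div_neg_eq]
  unfold ang
  rw [e x' q q', e x q q']
  rw [arg_div_half (hu q hq x hx) (hu q hq x' hx'),
    arg_div_half (hu q hq x' hx') (hu q' hq' x' hx'),
    arg_div_half (hu q hq x hx) (hu q' hq' x hx),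
    arg_div_half (hu q' hq' x hx) (hu q' hq' x' hx')]
  ring

/-- two vectors which are not opposite lie in an open half plane -/
theorem exists_half_two {z w : ℂ} (hz : z ≠ 0) (hw : w ≠ 0) (h : arg (w / z) ≠ π) :
    ∃ u : ℂ, 0 < (z / u).re ∧ 0 < (w / u).re := by
  set t := arg (w / z) with ht
  have htlt : t < π := lt_of_le_of_ne (Complex.arg_le_pi _) h
  have htgt : -π < t := Complex.neg_pi_lt_arg _
  have hwz : w / z ≠ 0 := div_ne_zero hw hz
  have hcos : 0 < Real.cos (t / 2) := Real.cos_pos_of_mem_Ioo ⟨by linarith, by linarith⟩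
  refine ⟨z * Complex.exp ((t / 2 : ℝ) * I), ?_, ?_⟩
  · have : z / (z * Complex.exp ((t / 2 : ℝ) * I)) = Complex.exp ((-(t / 2) : ℝ) * I) := by
      rw [div_mul_eq_div_div, div_self hz, one_div, ← Complex.exp_neg]
      congr 1; push_cast; ring
    rw [this, Complex.exp_ofReal_mul_I_re, Real.cos_neg]
    exact hcos
  · have : w / (z * Complex.exp ((t / 2 : ℝ) * I))
        = (‖w / z‖ : ℝ) * Complex.exp ((t / 2 : ℝ) * I) := by
      rw [div_mul_eq_div_div]
      conv_lhs => rw [← Complex.norm_mul_exp_arg_mul_I (w / z)]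
      rw [mul_div_assoc, ← Complex.exp_sub, ← ht]
      congr 2; push_cast; ring
    rw [this, Complex.re_ofReal_mul, Complex.exp_ofReal_mul_I_re]
    exact mul_pos (norm_pos_iff.2 hwz) hcos

/-- the triangle relation -/
theorem tri {a b c : ℂ} (hab : b ≠ a) (hbc : c ≠ b) (h : turn a b c ≠ π) :
    turn a b c = ang a b c + ang c a b := by
  have h1 : b - a ≠ 0 := sub_ne_zero.2 hab
  have h2 : c - b ≠ 0 := sub_ne_zero.2 hbc
  obtain ⟨u, hu1, hu2⟩ := exists_half_two h1 h2 h
  have hu3 : 0 < ((c - a) / u).re := by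
    have : (c - a) / u = (b - a) / u + (c - b) / u := by ring
    rw [this, Complex.add_re]; linarith
  have e : (b - c) / (a - c) = (c - b) / (c - a) := by
    rw [← neg_sub c b, ← neg_sub c a, neg_div_neg_eq]
  unfold turn ang
  rw [e, arg_div_half hu1 hu2, arg_div_half hu1 hu3, arg_div_half hu3 hu2]
  ring

/-- swept angle -/
noncomputable def sweep (q : ℂ) (x : ℕ → ℂ) (i j : ℕ) : ℝ :=
  ∑ k ∈ Finset.Ico i j, ang q (x k) (x (k + 1))

theorem sweep_self (q : ℂ) (x : ℕ → ℂ) (i : ℕ) : sweep q x i i = 0 := by simp [sweep]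

theorem sweep_succ (q : ℂ) (x : ℕ → ℂ) {i j : ℕ} (h : i ≤ j) :
    sweep q x i (j + 1) = sweep q x i j + ang q (x j) (x (j + 1)) := by
  simp [sweep, Finset.sum_Ico_succ_top h]

theorem sweep_left (q : ℂ) (x : ℕ → ℂ) {i j : ℕ} (h : i < j) :
    sweep q x i j = ang q (x i) (x (i + 1)) + sweep q x (i + 1) j := by
  simp [sweep, Finset.sum_eq_sum_Ico_succ_bot h]

theorem sweep_move {q q' : ℂ} {x : ℕ → ℂ} {i j : ℕ} (hij : i ≤ j)
    (h : ∀ k, i ≤ k → k < j → Disjoint (segment ℝ q q') (segment ℝ (x k) (x (k + 1)))) :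
    sweep q x i j + ang (x j) q q' = ang (x i) q q' + sweep q' x i j := by
  induction j, hij using Nat.le_induction with
  | base => simp [sweep_self]
  | succ j hij ih =>
    have ih' := ih (fun k h1 h2 => h k h1 (by omega))
    have hs := square (h j hij (by omega))
    rw [sweep_succ q x hij, sweep_succ q' x hij]
    linarith

/-- invariance of the winding sum of a closed polygon along a segment avoiding it -/
theorem wind_move {q q' : ℂ} {x : ℕ → ℂ} {N : ℕ} (hc : x N = x 0)
    (h : ∀ k, k < N → Disjoint (segment ℝ q q') (segment ℝ (x k) (x (k + 1)))) :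
    sweep q x 0 N = sweep q' x 0 N := by
  have := sweep_move (q := q) (q' := q') (x := x) (Nat.zero_le N) (fun k _ hk => h k hk)
  rw [hc] at this
  linarith

/-- Hopf's formula for a simple polyline `y 0, …, y (n+1)` -/
theorem hopf {y : ℕ → ℂ} {n : ℕ}
    (hd : ∀ k l, k + 1 < l → l ≤ n →
      Disjoint (segment ℝ (y l) (y (l + 1))) (segment ℝ (y k) (y (k + 1))))
    (hne : ∀ k, k ≤ n → y (k + 1) ≠ y k)
    (ht : ∀ k, k < n → turn (y k) (y (k + 1)) (y (k + 2)) ≠ π) :
    ∑ k ∈ Finset.range n, turn (y k) (y (k + 1)) (y (k + 2))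
      = sweep (y 0) y 1 (n + 1) + sweep (y (n + 1)) y 0 n := by
  induction n with
  | zero => simp [sweep_self]
  | succ n ih =>
    have ih' := ih (fun k l h1 h2 => hd k l h1 (by omega)) (fun k hk => hne k (by omega))
      (fun k hk => ht k (by omega))
    rw [Finset.sum_range_succ, ih', sweep_succ (y 0) y (show 1 ≤ n + 1 by omega),
      sweep_succ (y (n + 1 + 1)) y (Nat.zero_le n)]
    have hm := sweep_move (q := y (n + 1)) (q' := y (n + 2)) (x := y) (Nat.zero_le n)
      (fun k _ hk => hd k (n + 1) (by omega) (by omega))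
    have htri := tri (hne n (by omega)) (hne (n + 1) (by omega)) (ht n (by omega))
    rw [show n + 1 + 1 = n + 2 from rfl]
    linarith

end Pool.Agent.H477R3.Turn
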