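import Pool.Agent.H477R3.Turn

namespace Pool.Agent.H477R3.Turn

open Complex Real

theorem mem_seg_iff {a b z : ℂ} :
    z ∈ segment ℝ a b ↔ ∃ t : ℝ, 0 ≤ t ∧ t ≤ 1 ∧ z = a + t * (b - a) := by
  rw [segment_eq_image']
  constructor
  · rintro ⟨t, ⟨h0, h1⟩, rfl⟩
    exact ⟨t, h0, h1, by simp⟩
  · rintro ⟨t, h0, h1, rfl⟩
    exact ⟨t, ⟨h0, h1⟩, by simp⟩

theorem turn_ne_pi {a b c : ℂ} (hab : b ≠ a) (hbc : c ≠ b)
    (h : segment ℝ a b ∩ segment ℝ b c ⊆ {b}) : turn a b c ≠ π := by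
  intro hpi
  obtain ⟨h1, h2⟩ := Complex.arg_eq_pi_iff.1 hpi
  set w := (c - b) / (b - a) with hw
  have hw' : w = ((w.re : ℝ) : ℂ) := by
    apply Complex.ext <;> simp [h2]
  have hba : b - a ≠ 0 := sub_ne_zero.2 hab
  have hcb : c - b = (w.re : ℂ) * (b - a) := by
    rw [← hw', hw, div_mul_cancel₀ _ hba]
  set r : ℝ := - w.re with hr
  have hrpos : 0 < r := by linarith
  have hr1 : 0 < 1 + r := by linarith
  have hm1 : b + ((1 / (1 + r) : ℝ) : ℂ) * (c - b) ∈ segment ℝ b c :=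
    mem_seg_iff.2 ⟨1 / (1 + r), by positivity, by rw [div_le_one hr1]; linarith, rfl⟩
  have hm2 : b + ((1 / (1 + r) : ℝ) : ℂ) * (c - b) ∈ segment ℝ a b := by
    refine mem_seg_iff.2 ⟨1 / (1 + r), by positivity, by rw [div_le_one hr1]; linarith, ?_⟩
    rw [hcb]
    have hwr : (w.re : ℂ) = - (r : ℂ) := by rw [hr]; push_cast; ring
    rw [hwr]
    have h3 : (1 : ℂ) + r ≠ 0 := by
      have : ((1 + r : ℝ) : ℂ) ≠ 0 := by exact_mod_cast hr1.ne'
      simpa using this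
    push_cast
    field_simp
    ring
  have := h ⟨hm2, hm1⟩
  rw [Set.mem_singleton_iff] at this
  have h4 : ((1 / (1 + r) : ℝ) : ℂ) * (c - b) = 0 := by linear_combination this
  rcases mul_eq_zero.1 h4 with h5 | h5
  · have : (1 / (1 + r) : ℝ) = 0 := by exact_mod_cast h5
    have h6 : 0 < 1 / (1 + r) := by positivity
    linarith
  · exact sub_ne_zero.2 hbc h5

theorem ang_symm {q x y : ℂ} (h : ang q x y ≠ π) : ang q y x = - ang q x y := by
  unfold ang at *
  rw [← inv_div, Complex.arg_inv, if_neg h]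

/-- if `q` is not strictly between `x` and `y` then the angle at `q` is not `π` -/
theorem ang_ne_pi {q x y : ℂ} (hx : x ≠ q) (h : q ∉ segment ℝ x y) : ang q x y ≠ π := by
  intro hpi
  obtain ⟨h1, h2⟩ := Complex.arg_eq_pi_iff.1 hpi
  set w := (y - q) / (x - q) with hw
  have hw' : w = ((w.re : ℝ) : ℂ) := by
    apply Complex.ext <;> simp [h2]
  have hxq : x - q ≠ 0 := sub_ne_zero.2 hx
  have hy : y - q = (w.re : ℂ) * (x - q) := by
    rw [← hw', hw, div_mul_cancel₀ _ hxq]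
  apply h
  have h3 : 0 < 1 - w.re := by linarith
  refine mem_seg_iff.2 ⟨1 / (1 - w.re), by positivity, by rw [div_le_one h3]; linarith, ?_⟩
  have hyx : y - x = ((w.re : ℂ) - 1) * (x - q) := by linear_combination hy
  rw [hyx]
  have h4 : (1 : ℂ) - w.re ≠ 0 := by
    have : ((1 - w.re : ℝ) : ℂ) ≠ 0 := by exact_mod_cast h3.ne'
    simpa using this
  push_cast
  field_simp
  ring

theorem arg_neg_div {z w : ℂ} (hz : z ≠ 0) (hw : w ≠ 0) (h : arg z < arg w) :
    arg (-(z / w)) = π - (arg w - arg z) := by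
  have h1 := Complex.neg_pi_lt_arg z
  have h2 := Complex.arg_le_pi w
  have hr : 0 < ‖z‖ / ‖w‖ := div_pos (norm_pos_iff.2 hz) (norm_pos_iff.2 hw)
  have hθ : π - (arg w - arg z) ∈ Set.Ioc (-π) π := ⟨by linarith, by linarith⟩
  rw [← Complex.arg_mul_cos_add_sin_mul_I hr hθ]
  congr 1
  rw [← Complex.exp_mul_I]
  have ez : z = ‖z‖ * Complex.exp (arg z * I) := (Complex.norm_mul_exp_arg_mul_I z).symm
  have ew : w = ‖w‖ * Complex.exp (arg w * I) := (Complex.norm_mul_exp_arg_mul_I w).symm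
  have hnw : (‖w‖ : ℂ) ≠ 0 := by exact_mod_cast (norm_pos_iff.2 hw).ne'
  have hE : Complex.exp (((π - (arg w - arg z) : ℝ) : ℂ) * I)
      = - (Complex.exp (arg z * I) / Complex.exp (arg w * I)) := by
    have : (((π - (arg w - arg z) : ℝ) : ℂ) * I) = π * I + (arg z * I - arg w * I) := by
      push_cast; ring
    rw [this, Complex.exp_add, Complex.exp_pi_mul_I, Complex.exp_sub]
    ring
  rw [hE]
  conv_lhs => rw [ez, ew]
  push_cast
  have he : Complex.exp (arg w * I) ≠ 0 := Complex.exp_ne_zero _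
  field_simp

theorem arg_neg_div' {z w : ℂ} (hz : z ≠ 0) (hw : w ≠ 0) (h : arg w < arg z) :
    arg (-(z / w)) = - π - (arg w - arg z) := by
  have h1 := Complex.neg_pi_lt_arg w
  have h2 := Complex.arg_le_pi z
  have hr : 0 < ‖z‖ / ‖w‖ := div_pos (norm_pos_iff.2 hz) (norm_pos_iff.2 hw)
  have hθ : - π - (arg w - arg z) ∈ Set.Ioc (-π) π := ⟨by linarith, by linarith⟩
  rw [← Complex.arg_mul_cos_add_sin_mul_I hr hθ]
  congr 1
  rw [← Complex.exp_mul_I]
  have ez : z = ‖z‖ * Complex.exp (arg z * I) := (Complex.norm_mul_exp_arg_mul_I z).symm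
  have ew : w = ‖w‖ * Complex.exp (arg w * I) := (Complex.norm_mul_exp_arg_mul_I w).symm
  have hnw : (‖w‖ : ℂ) ≠ 0 := by exact_mod_cast (norm_pos_iff.2 hw).ne'
  have hE : Complex.exp (((- π - (arg w - arg z) : ℝ) : ℂ) * I)
      = - (Complex.exp (arg z * I) / Complex.exp (arg w * I)) := by
    have : (((- π - (arg w - arg z) : ℝ) : ℂ) * I) = -(π * I) + (arg z * I - arg w * I) := by
      push_cast; ring
    rw [this, Complex.exp_add, Complex.exp_neg, Complex.exp_pi_mul_I, Complex.exp_sub]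
    ring
  rw [hE]
  conv_lhs => rw [ez, ew]
  push_cast
  have he : Complex.exp (arg w * I) ≠ 0 := Complex.exp_ne_zero _
  field_simp

theorem core_eq {y : ℕ → ℂ} {n : ℕ} (hn : 2 ≤ n) {q : ℂ}
    (hd : ∀ k l, k + 1 < l → l ≤ n →
      Disjoint (segment ℝ (y l) (y (l + 1))) (segment ℝ (y k) (y (k + 1))))
    (hne : ∀ k, k ≤ n → y (k + 1) ≠ y k)
    (ht : ∀ k, k < n → turn (y k) (y (k + 1)) (y (k + 2)) ≠ π)
    (hbp : y (n + 1) ≠ y 0)
    (hc : ∀ k, 1 ≤ k → k < n →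
      Disjoint (segment ℝ (y (n + 1)) (y 0)) (segment ℝ (y k) (y (k + 1))))
    (hc0 : segment ℝ (y (n + 1)) (y 0) ∩ segment ℝ (y 0) (y 1) ⊆ {y 0})
    (hcn : segment ℝ (y n) (y (n + 1)) ∩ segment ℝ (y (n + 1)) (y 0) ⊆ {y (n + 1)})
    (hqp : y 0 ≠ q)
    (hq : ∀ k, 1 ≤ k → k ≤ n → Disjoint (segment ℝ q (y 0)) (segment ℝ (y k) (y (k + 1))))
    (hq0 : segment ℝ q (y 0) ∩ segment ℝ (y 0) (y 1) ⊆ {y 0})
    (hqb : segment ℝ q (y 0) ∩ segment ℝ (y 0) (y (n + 1)) ⊆ {y 0})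
    (hW : sweep q y 0 (n + 1) + ang q (y (n + 1)) (y 0) = 0) :
    ∑ k ∈ Finset.range n, turn (y k) (y (k + 1)) (y (k + 2))
      = (turn q (y 0) (y (n + 1)) - turn q (y 0) (y 1))
        + ((turn q (y 0) (y (n + 1)) - turn q (y 0) (y 1)) + turn (y (n + 1)) (y 0) (y 1)
          - turn (y n) (y (n + 1)) (y 0)) := by
  set p := y 0 with hp
  set b := y (n + 1) with hb
  have hH := hopf hd hne ht
  -- view from p
  have hqb' : q ∉ segment ℝ p b := by
    intro h
    exact hqp (hqb ⟨left_mem_segment ℝ q p, h⟩).symm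
  have e1 : ang q b p = - ang q p b := ang_symm (ang_ne_pi hqp hqb')
  have t1 := tri hqp hbp (turn_ne_pi hqp hbp hqb)
  have hy1 : y 1 ≠ p := hne 0 (by omega)
  have t2 := tri hqp hy1 (turn_ne_pi hqp hy1 hq0)
  have m1 := sweep_move (q := q) (q' := p) (x := y) (i := 1) (j := n + 1) (by omega)
    (fun k h1 h2 => hq k h1 (by omega))
  have l1 := sweep_left q y (i := 0) (j := n + 1) (by omega)
  rw [← hp, zero_add] at l1
  rw [← hb] at m1
  have hAp : sweep p y 1 (n + 1) = turn q p b - turn q p (y 1) := by linarith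
  -- view from the midpoint of `b p`
  set c : ℂ := (b + p) / 2 with hcdef
  have hcs : c ∈ segment ℝ b p := mem_seg_iff.2 ⟨1/2, by norm_num, by norm_num, by
    rw [hcdef]; push_cast; ring⟩
  have hsub1 : segment ℝ p c ⊆ segment ℝ b p := (convex_segment b p).segment_subset
    (right_mem_segment ℝ b p) hcs
  have hsub2 : segment ℝ b c ⊆ segment ℝ b p := (convex_segment b p).segment_subset
    (left_mem_segment ℝ b p) hcs
  have hbn : b ∉ segment ℝ p c := by
    intro h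
    obtain ⟨t, h0, h1, h2⟩ := mem_seg_iff.1 h
    have : (1 - (t : ℂ) / 2) * (b - p) = 0 := by
      rw [hcdef] at h2; linear_combination h2
    rcases mul_eq_zero.1 this with h3 | h3
    · have : (1 - t / 2 : ℝ) = 0 := by exact_mod_cast h3
      linarith
    · exact hbp (sub_eq_zero.1 h3)
  have hpn : p ∉ segment ℝ b c := by
    intro h
    obtain ⟨t, h0, h1, h2⟩ := mem_seg_iff.1 h
    have : (1 - (t : ℂ) / 2) * (p - b) = 0 := by
      rw [hcdef] at h2; linear_combination h2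
    rcases mul_eq_zero.1 this with h3 | h3
    · have : (1 - t / 2 : ℝ) = 0 := by exact_mod_cast h3
      linarith
    · exact hbp (sub_eq_zero.1 h3).symm
  have m2 := sweep_move (q := p) (q' := c) (x := y) (i := 1) (j := n + 1) (by omega)
    (fun k h1 h2 => by
      rcases Nat.lt_or_ge k n with h3 | h3
      · exact (hc k h1 h3).mono_left hsub1
      · have hk : k = n := by omega
        subst hk
        rw [Set.disjoint_left]
        intro z hz1 hz2
        have := hcn ⟨hz2, hsub1 hz1⟩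
        rw [Set.mem_singleton_iff] at this
        rw [this] at hz1
        exact hbn hz1)
  have m3 := sweep_move (q := b) (q' := c) (x := y) (i := 0) (j := n) (by omega)
    (fun k h1 h2 => by
      rcases Nat.eq_zero_or_pos k with h3 | h3
      · subst h3
        rw [Set.disjoint_left]
        intro z hz1 hz2
        have := hc0 ⟨hsub2 hz1, hz2⟩
        rw [Set.mem_singleton_iff] at this
        rw [this] at hz1
        exact hpn hz1
      · exact (hc k h3 h2).mono_left hsub2)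
  rw [← hb] at m2
  rw [← hp] at m3
  have hpb0 : p - b ≠ 0 := sub_ne_zero.2 hbp.symm
  have hbp0 : b - p ≠ 0 := sub_ne_zero.2 hbp
  have z1 : ang b p c = 0 := by
    unfold ang
    have : (c - b) / (p - b) = ((1 / 2 : ℝ) : ℂ) := by
      rw [div_eq_iff hpb0, hcdef]; push_cast; ring
    rw [this]; exact Complex.arg_ofReal_of_nonneg (by norm_num)
  have z2 : ang p b c = 0 := by
    unfold ang
    have : (c - p) / (b - p) = ((1 / 2 : ℝ) : ℂ) := by
      rw [div_eq_iff hbp0, hcdef]; push_cast; ring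
    rw [this]; exact Complex.arg_ofReal_of_nonneg (by norm_num)
  have l2 := sweep_left c y (i := 0) (j := n + 1) (by omega)
  rw [← hp, zero_add] at l2
  have l3 := sweep_succ c y (Nat.zero_le n)
  rw [← hb] at l3
  have hcp : p ≠ c := fun h => hpn (h ▸ right_mem_segment ℝ b c)
  have hcb : c ≠ b := fun h => hbn (h ▸ right_mem_segment ℝ p c)
  have t3' : turn c p (y 1) = turn b p (y 1) := by
    unfold turn
    have : (y 1 - p) / (p - c) = ((2 : ℝ) : ℂ) * ((y 1 - p) / (p - b)) := by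
      have : p - c = (p - b) / 2 := by rw [hcdef]; ring
      rw [this]; push_cast; field_simp
    rw [this]
    exact Complex.arg_real_mul _ (by norm_num)
  have t4' : turn (y n) b c = turn (y n) b p := by
    unfold turn
    have : (c - b) / (b - y n) = ((1 / 2 : ℝ) : ℂ) * ((p - b) / (b - y n)) := by
      have : c - b = (p - b) / 2 := by rw [hcdef]; ring
      rw [this]; push_cast; ring
    rw [this]
    exact Complex.arg_real_mul _ (by norm_num)
  have t3 := tri hcp hy1 (by rw [t3']; exact turn_ne_pi hbp.symm hy1 hc0)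
  have t4 := tri (hne n le_rfl) hcb (by
    rw [← hb, t4']; exact turn_ne_pi (hne n le_rfl) hbp.symm hcn)
  rw [← hb] at t4
  have hy1bp : y 1 ∉ segment ℝ b p := fun h =>
    Set.disjoint_left.1 (hc 1 le_rfl (by omega)) h (left_mem_segment ℝ _ _)
  have s1 : ang (y 1) p c = - ang (y 1) c p :=
    ang_symm (ang_ne_pi (fun h => hy1bp (h ▸ hcs)) (fun h => hy1bp (hsub1 (by
      rw [segment_symm]; exact h))))
  rw [hH, ← hp, ← hb]
  rw [t3'] at t3
  rw [t4'] at t4
  linarith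

theorem core_left {y : ℕ → ℂ} {n : ℕ} (hn : 2 ≤ n) {q s : ℂ}
    (hd : ∀ k l, k + 1 < l → l ≤ n →
      Disjoint (segment ℝ (y l) (y (l + 1))) (segment ℝ (y k) (y (k + 1))))
    (hne : ∀ k, k ≤ n → y (k + 1) ≠ y k)
    (ht : ∀ k, k < n → turn (y k) (y (k + 1)) (y (k + 2)) ≠ π)
    (hbp : y (n + 1) ≠ y 0)
    (hc : ∀ k, 1 ≤ k → k < n →
      Disjoint (segment ℝ (y (n + 1)) (y 0)) (segment ℝ (y k) (y (k + 1))))
    (hc0 : segment ℝ (y (n + 1)) (y 0) ∩ segment ℝ (y 0) (y 1) ⊆ {y 0})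
    (hcn : segment ℝ (y n) (y (n + 1)) ∩ segment ℝ (y (n + 1)) (y 0) ⊆ {y (n + 1)})
    (hqp : y 0 ≠ q)
    (hq : ∀ k, 1 ≤ k → k ≤ n → Disjoint (segment ℝ q (y 0)) (segment ℝ (y k) (y (k + 1))))
    (hq0 : segment ℝ q (y 0) ∩ segment ℝ (y 0) (y 1) ⊆ {y 0})
    (hqb : segment ℝ q (y 0) ∩ segment ℝ (y 0) (y (n + 1)) ⊆ {y 0})
    (hW : sweep q y 0 (n + 1) + ang q (y (n + 1)) (y 0) = 0)
    (hleft : turn q (y 0) (y 1) < turn q (y 0) (y (n + 1)))
    (hright : turn (y (n - 1)) (y n) (y (n + 1)) < turn (y (n - 1)) (y n) s) :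
    0 < ∑ k ∈ Finset.range (n - 1), turn (y k) (y (k + 1)) (y (k + 2))
      + turn (y (n - 1)) (y n) s := by
  have hsum := core_eq hn hd hne ht hbp hc hc0 hcn hqp hq hq0 hqb hW
  have hpq : y 0 - q ≠ 0 := sub_ne_zero.2 hqp
  have hy1' : y 1 - y 0 ≠ 0 := sub_ne_zero.2 (hne 0 (by omega))
  have hbp0 : y (n + 1) - y 0 ≠ 0 := sub_ne_zero.2 hbp
  have hβτ : turn (y (n + 1)) (y 0) (y 1)
      = π - (turn q (y 0) (y (n + 1)) - turn q (y 0) (y 1)) := by
    have := arg_neg_div (z := (y 1 - y 0) / (y 0 - q)) (w := (y (n + 1) - y 0) / (y 0 - q))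
      (div_ne_zero hy1' hpq) (div_ne_zero hbp0 hpq) hleft
    unfold turn
    rw [← this]
    congr 1
    rw [div_div_div_cancel_right₀ hpq, ← div_neg, neg_sub]
  have hle : turn (y n) (y (n + 1)) (y 0) ≤ π := Complex.arg_le_pi _
  obtain ⟨m, rfl⟩ : ∃ m, n = m + 1 := ⟨n - 1, by omega⟩
  rw [Finset.sum_range_succ] at hsum
  simp only [Nat.add_sub_cancel] at hright ⊢
  rw [show m + 1 + 1 = m + 2 from rfl] at hsum hright hβτ hle hleft
  linarith

theorem core_right {y : ℕ → ℂ} {n : ℕ} (hn : 2 ≤ n) {q s : ℂ}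
    (hd : ∀ k l, k + 1 < l → l ≤ n →
      Disjoint (segment ℝ (y l) (y (l + 1))) (segment ℝ (y k) (y (k + 1))))
    (hne : ∀ k, k ≤ n → y (k + 1) ≠ y k)
    (ht : ∀ k, k < n → turn (y k) (y (k + 1)) (y (k + 2)) ≠ π)
    (hbp : y (n + 1) ≠ y 0)
    (hc : ∀ k, 1 ≤ k → k < n →
      Disjoint (segment ℝ (y (n + 1)) (y 0)) (segment ℝ (y k) (y (k + 1))))
    (hc0 : segment ℝ (y (n + 1)) (y 0) ∩ segment ℝ (y 0) (y 1) ⊆ {y 0})
    (hcn : segment ℝ (y n) (y (n + 1)) ∩ segment ℝ (y (n + 1)) (y 0) ⊆ {y (n + 1)})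
    (hqp : y 0 ≠ q)
    (hq : ∀ k, 1 ≤ k → k ≤ n → Disjoint (segment ℝ q (y 0)) (segment ℝ (y k) (y (k + 1))))
    (hq0 : segment ℝ q (y 0) ∩ segment ℝ (y 0) (y 1) ⊆ {y 0})
    (hqb : segment ℝ q (y 0) ∩ segment ℝ (y 0) (y (n + 1)) ⊆ {y 0})
    (hW : sweep q y 0 (n + 1) + ang q (y (n + 1)) (y 0) = 0)
    (hleft : turn q (y 0) (y (n + 1)) < turn q (y 0) (y 1))
    (hright : turn (y (n - 1)) (y n) s < turn (y (n - 1)) (y n) (y (n + 1))) :
    ∑ k ∈ Finset.range (n - 1), turn (y k) (y (k + 1)) (y (k + 2))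
      + turn (y (n - 1)) (y n) s < 0 := by
  have hsum := core_eq hn hd hne ht hbp hc hc0 hcn hqp hq hq0 hqb hW
  have hpq : y 0 - q ≠ 0 := sub_ne_zero.2 hqp
  have hy1' : y 1 - y 0 ≠ 0 := sub_ne_zero.2 (hne 0 (by omega))
  have hbp0 : y (n + 1) - y 0 ≠ 0 := sub_ne_zero.2 hbp
  have hβτ : turn (y (n + 1)) (y 0) (y 1)
      = - π - (turn q (y 0) (y (n + 1)) - turn q (y 0) (y 1)) := by
    have := arg_neg_div' (z := (y 1 - y 0) / (y 0 - q)) (w := (y (n + 1) - y 0) / (y 0 - q))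
      (div_ne_zero hy1' hpq) (div_ne_zero hbp0 hpq) hleft
    unfold turn
    rw [← this]
    congr 1
    rw [div_div_div_cancel_right₀ hpq, ← div_neg, neg_sub]
  have hle : -π < turn (y n) (y (n + 1)) (y 0) := Complex.neg_pi_lt_arg _
  obtain ⟨m, rfl⟩ : ∃ m, n = m + 1 := ⟨n - 1, by omega⟩
  rw [Finset.sum_range_succ] at hsum
  simp only [Nat.add_sub_cancel] at hright ⊢
  rw [show m + 1 + 1 = m + 2 from rfl] at hsum hright hβτ hle hleft
  linarith

/-- every corner of a closed polygon is at most as far from the origin as `q`: the winding sum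
at `q` vanishes -/
theorem wind_zero {z : ℕ → ℂ} {N : ℕ} {q : ℂ} (hc : z N = z 0)
    (hle : ∀ k, k ≤ N → ‖z k‖ ≤ ‖q‖) (hne : ∀ k, k ≤ N → z k ≠ q) : sweep q z 0 N = 0 := by
  have hq : q ≠ 0 := by
    rintro rfl
    have := hle 0 (Nat.zero_le _)
    rw [norm_zero] at this
    exact hne 0 (Nat.zero_le _) (norm_le_zero_iff.1 this)
  have hpos : ∀ k, k ≤ N → 0 < ((z k - q) / (-q)).re := by
    intro k hk
    have e : (z k - q) / (-q) = (q - z k) / q := by
      rw [← neg_sub q (z k), neg_div_neg_eq]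
    rw [e]
    have hn : 0 < Complex.normSq q := Complex.normSq_pos.2 hq
    have h1 : ((q - z k) / q).re = ((q - z k) * (starRingEnd ℂ) q).re / Complex.normSq q := by
      rw [Complex.div_re, Complex.mul_re, Complex.conj_re, Complex.conj_im]; ring
    rw [h1]
    apply div_pos _ hn
    have h2 : 0 < Complex.normSq (q - z k) := Complex.normSq_pos.2 (sub_ne_zero.2 (hne k hk).symm)
    have h3 : Complex.normSq (z k) ≤ Complex.normSq q := by
      rw [Complex.normSq_eq_norm_sq, Complex.normSq_eq_norm_sq]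
      have := hle k hk
      have := norm_nonneg (z k)
      nlinarith
    rw [Complex.normSq_apply] at h2 h3
    rw [Complex.normSq_apply] at h3
    rw [Complex.mul_re, Complex.conj_re, Complex.conj_im]
    simp only [Complex.sub_re, Complex.sub_im] at *
    nlinarith
  have hs : ∀ k, k < N → ang q (z k) (z (k + 1))
      = Complex.arg ((z (k + 1) - q) / (-q)) - Complex.arg ((z k - q) / (-q)) := by
    intro k hk
    exact arg_div_half (hpos k hk.le) (hpos (k + 1) hk)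
  unfold sweep
  rw [← Finset.range_eq_Ico, Finset.sum_congr rfl (fun k hk => hs k (Finset.mem_range.1 hk)),
    Finset.sum_range_sub (fun k => Complex.arg ((z k - q) / (-q))), hc, sub_self]

/-- two disjoint closed polygons do not wind around each other's corners -/
theorem not_both {z z' : ℕ → ℂ} {N N' : ℕ} (hc : z N = z 0) (hc' : z' N' = z' 0)
    (hne : ∀ k l, k ≤ N → l ≤ N' → z k ≠ z' l)
    (h1 : ∀ l, l ≤ N' → sweep (z' l) z 0 N ≠ 0) (h2 : ∀ k, k ≤ N → sweep (z k) z' 0 N' ≠ 0) :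
    False := by
  obtain ⟨k, hk, hkm⟩ := Finset.exists_max_image (Finset.range (N + 1)) (fun k => ‖z k‖)
    ⟨0, by simp⟩
  obtain ⟨l, hl, hlm⟩ := Finset.exists_max_image (Finset.range (N' + 1)) (fun k => ‖z' k‖)
    ⟨0, by simp⟩
  have hk' : k ≤ N := by simpa [Nat.lt_succ_iff] using hk
  have hl' : l ≤ N' := by simpa [Nat.lt_succ_iff] using hl
  rcases le_total ‖z k‖ ‖z' l‖ with h | h
  · exact h1 l hl' (wind_zero hc
      (fun j hj => (hkm j (by simpa [Nat.lt_succ_iff] using hj)).trans h)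
      (fun j hj => hne j l hj hl'))
  · exact h2 k hk' (wind_zero hc'
      (fun j hj => (hlm j (by simpa [Nat.lt_succ_iff] using hj)).trans h)
      (fun j hj => (hne k j hk' hj).symm))

/-- all the nonangular hypotheses of `core_left` and `core_right` -/
structure Hyp (y : ℕ → ℂ) (n : ℕ) (q : ℂ) : Prop where
  hn : 2 ≤ n
  hd : ∀ k l, k + 1 < l → l ≤ n →
      Disjoint (segment ℝ (y l) (y (l + 1))) (segment ℝ (y k) (y (k + 1)))
  hne : ∀ k, k ≤ n → y (k + 1) ≠ y k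
  ht : ∀ k, k < n → turn (y k) (y (k + 1)) (y (k + 2)) ≠ π
  hbp : y (n + 1) ≠ y 0
  hc : ∀ k, 1 ≤ k → k < n →
      Disjoint (segment ℝ (y (n + 1)) (y 0)) (segment ℝ (y k) (y (k + 1)))
  hc0 : segment ℝ (y (n + 1)) (y 0) ∩ segment ℝ (y 0) (y 1) ⊆ {y 0}
  hcn : segment ℝ (y n) (y (n + 1)) ∩ segment ℝ (y (n + 1)) (y 0) ⊆ {y (n + 1)}
  hqp : y 0 ≠ q
  hq : ∀ k, 1 ≤ k → k ≤ n → Disjoint (segment ℝ q (y 0)) (segment ℝ (y k) (y (k + 1)))
  hq0 : segment ℝ q (y 0) ∩ segment ℝ (y 0) (y 1) ⊆ {y 0}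
  hqb : segment ℝ q (y 0) ∩ segment ℝ (y 0) (y (n + 1)) ⊆ {y 0}
  hW : sweep q y 0 (n + 1) + ang q (y (n + 1)) (y 0) = 0

theorem Hyp.left {y : ℕ → ℂ} {n : ℕ} {q : ℂ} (h : Hyp y n q) {s : ℂ}
    (hleft : turn q (y 0) (y 1) < turn q (y 0) (y (n + 1)))
    (hright : turn (y (n - 1)) (y n) (y (n + 1)) < turn (y (n - 1)) (y n) s) :
    0 < ∑ k ∈ Finset.range (n - 1), turn (y k) (y (k + 1)) (y (k + 2))
      + turn (y (n - 1)) (y n) s :=
  core_left h.hn h.hd h.hne h.ht h.hbp h.hc h.hc0 h.hcn h.hqp h.hq h.hq0 h.hqb h.hW hleft hright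

theorem Hyp.right {y : ℕ → ℂ} {n : ℕ} {q : ℂ} (h : Hyp y n q) {s : ℂ}
    (hleft : turn q (y 0) (y (n + 1)) < turn q (y 0) (y 1))
    (hright : turn (y (n - 1)) (y n) s < turn (y (n - 1)) (y n) (y (n + 1))) :
    ∑ k ∈ Finset.range (n - 1), turn (y k) (y (k + 1)) (y (k + 2))
      + turn (y (n - 1)) (y n) s < 0 :=
  core_right h.hn h.hd h.hne h.ht h.hbp h.hc h.hc0 h.hcn h.hqp h.hq h.hq0 h.hqb h.hW hleft hright

end Pool.Agent.H477R3.Turn
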